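import Mathlib

/-!
# Deconstructibility of classes of relative Gorenstein projective modules: definitions

Everything is stated for modules in `Type u` over a ring in `Type u`; a class is an arbitrary
`Set` of objects, a set of modules is a family indexed by a type in `Type u`.
-/

universe u

open CategoryTheory CategoryTheory.Limits

namespace DGP

variable {R : Type u} [Ring R]

/-- The class `⊥₁ 𝒳` of modules `G` with `Ext¹(G, X) = 0` for all `X ∈ 𝒳`. -/
def PerpOne (𝒳 : Set (ModuleCat.{u} R)) : Set (ModuleCat.{u} R) :=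
  {G | ∀ X ∈ 𝒳, Subsingleton (Abelian.Ext G X 1)}

/-- The class of `𝒳`-Gorenstein projective modules, as defined in the problem: there is an
acyclic complex `P` of projective modules with `G ≅ ker (P⁰ → P¹)`, and `G ∈ ⊥₁ 𝒳`. -/
def XGP (𝒳 : Set (ModuleCat.{u} R)) : Set (ModuleCat.{u} R) :=
  {G | (∃ P : CochainComplex (ModuleCat.{u} R) ℤ, P.Acyclic ∧ (∀ n, Projective (P.X n)) ∧
      Nonempty (G ≅ kernel (P.d 0 1))) ∧ G ∈ PerpOne 𝒳}

/-- `M` is filtered by the family `S`: there is a continuous increasing chain of submodules,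
indexed by the ordinals `≤ σ`, from `0` to `M`, with successive quotients isomorphic to members
of the family. -/
def Filtered {ι : Type u} (S : ι → ModuleCat.{u} R) (M : ModuleCat.{u} R) : Prop :=
  ∃ (σ : Ordinal.{u}) (F : Ordinal.{u} → Submodule R M),
    F 0 = ⊥ ∧ F σ = ⊤ ∧ (∀ α β, α ≤ β → β ≤ σ → F α ≤ F β) ∧
    (∀ α ≤ σ, Order.IsSuccLimit α → F α = ⨆ β : Set.Iio α, F β) ∧
    ∀ α < σ, ∃ i, Nonempty
      (ModuleCat.of R (↥(F (Order.succ α)) ⧸ (F α).submoduleOf (F (Order.succ α))) ≅ S i)

/-- A class `𝒞` of modules is deconstructible if there is a set of members of `𝒞` such that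
every module in `𝒞` is filtered by it. -/
def Deconstructible (𝒞 : Set (ModuleCat.{u} R)) : Prop :=
  ∃ (ι : Type u) (S : ι → ModuleCat.{u} R), (∀ i, S i ∈ 𝒞) ∧ ∀ M ∈ 𝒞, Filtered S M

end DGP
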