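import Pool.Agent.H54.DGP.Graded
import Pool.Agent.H54.DGP.Defs

/-!
# Acyclic complexes of projectives from differential modules
-/

universe u

open CategoryTheory CategoryTheory.Limits

namespace H54

section ext

variable {R : Type u} [Ring R]

theorem ext_subsingleton_of_lift {S : ShortComplex (ModuleCat.{u} R)} (hS : S.ShortExact)
    [Projective S.X₂] (X : ModuleCat.{u} R)
    (h : ∀ f : S.X₁ ⟶ X, ∃ g : S.X₂ ⟶ X, S.f ≫ g = f) :
    Subsingleton (Abelian.Ext S.X₃ X 1) := by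
  refine subsingleton_of_forall_eq 0 fun e => ?_
  obtain ⟨x, hx⟩ := Abelian.Ext.contravariant_sequence_exact₃ hS X e
    (Abelian.Ext.eq_zero_of_projective _) (n₀ := 0) rfl
  obtain ⟨f, rfl⟩ := (Abelian.Ext.mk₀_bijective _ _).2 x
  obtain ⟨g, rfl⟩ := h f
  rw [← hx, ← Abelian.Ext.mk₀_comp_mk₀, hS.extClass_comp_assoc]

theorem exists_lift_of_ext {S : ShortComplex (ModuleCat.{u} R)} (hS : S.ShortExact)
    (G : ModuleCat.{u} R) [Subsingleton (Abelian.Ext G S.X₁ 1)] (ψ : G ⟶ S.X₃) :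
    ∃ φ : G ⟶ S.X₂, φ ≫ S.g = ψ := by
  obtain ⟨x, hx⟩ := Abelian.Ext.covariant_sequence_exact₃ G hS (Abelian.Ext.mk₀ ψ) (n₁ := 1) rfl
    (Subsingleton.elim _ _)
  obtain ⟨f, rfl⟩ := (Abelian.Ext.mk₀_bijective _ _).2 x
  refine ⟨f, ?_⟩
  rw [Abelian.Ext.mk₀_comp_mk₀] at hx
  exact (Abelian.Ext.mk₀_bijective _ _).1 hx

end ext

section

variable {B : Type u} [Ring B] {τ : RingAut B} (D : Dat B τ)

theorem iMap_comp_pMap (n : ℤ) :
    ModuleCat.ofHom (D.iMap n) ≫ ModuleCat.ofHom (D.pMap n) = 0 := by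
  ext x
  exact (D.exact_iMap_pMap n).apply_apply_eq_zero x

/-- The short complex `G n → P n → G (n + 1)`. -/
noncomputable def Dat.sc (n : ℤ) : ShortComplex (ModuleCat.{u} (DD B τ)) :=
  ShortComplex.mk (ModuleCat.ofHom (D.iMap n)) (ModuleCat.ofHom (D.pMap n)) (iMap_comp_pMap D n)

theorem Dat.sc_shortExact (n : ℤ) : (D.sc n).ShortExact := by
  have : Mono (D.sc n).f := (ModuleCat.mono_iff_injective _).2 (D.iMap_injective n)
  have : Epi (D.sc n).g := (ModuleCat.epi_iff_surjective _).2 (D.pMap_surjective n)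
  refine ⟨?_⟩
  refine (ShortComplex.ShortExact.moduleCat_exact_iff_function_exact _).2 ?_
  exact D.exact_iMap_pMap n

instance [Module.Projective B D.V] (n : ℤ) :
    Projective (ModuleCat.of (DD B τ) (PT D n)) :=
  have := D.projective_PT n
  ModuleCat.projective_of_categoryTheory_projective _

/-- The differential of the acyclic complex. -/
noncomputable def Dat.diff (n : ℤ) :
    ModuleCat.of (DD B τ) (PT D n) ⟶ ModuleCat.of (DD B τ) (PT D (n + 1)) :=
  ModuleCat.ofHom (D.pMap n) ≫ ModuleCat.ofHom (D.iMap (n + 1))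

theorem Dat.diff_comp (n : ℤ) : D.diff n ≫ D.diff (n + 1) = 0 := by
  unfold Dat.diff
  rw [Category.assoc, reassoc_of% (iMap_comp_pMap D (n + 1)), zero_comp, comp_zero]

/-- The acyclic complex of projectives. -/
noncomputable def Dat.cplx : CochainComplex (ModuleCat.{u} (DD B τ)) ℤ :=
  CochainComplex.of (fun n => ModuleCat.of (DD B τ) (PT D n)) D.diff D.diff_comp

theorem Dat.cplx_d (n : ℤ) : D.cplx.d n (n + 1) = D.diff n :=
  CochainComplex.of_d (fun n => ModuleCat.of (DD B τ) (PT D n)) D.diff n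

theorem Dat.cplx_acyclic : D.cplx.Acyclic := by
  intro i
  obtain ⟨n, rfl⟩ : ∃ n, i = n + 1 := ⟨i - 1, by ring⟩
  rw [HomologicalComplex.exactAt_iff' D.cplx n (n + 1) (n + 1 + 1) (by simp) (by simp)]
  refine (ShortComplex.ShortExact.moduleCat_exact_iff_function_exact _).2 ?_
  change Function.Exact (D.cplx.d n (n + 1)).hom (D.cplx.d (n + 1) (n + 1 + 1)).hom
  rw [Dat.cplx_d, Dat.cplx_d]
  intro x
  change D.iMap (n + 1 + 1) (D.pMap (n + 1) x) = 0 ↔ x ∈ Set.range fun y =>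
    D.iMap (n + 1) (D.pMap n y)
  constructor
  · intro h
    have h1 : D.pMap (n + 1) x = 0 := D.iMap_injective _ (by rw [h, map_zero])
    obtain ⟨z, hz⟩ := (D.exact_iMap_pMap (n + 1) x).1 h1
    obtain ⟨y, hy⟩ := D.pMap_surjective n z
    exact ⟨y, by change D.iMap (n + 1) (D.pMap n y) = x; rw [hy, hz]⟩
  · rintro ⟨y, rfl⟩
    change D.iMap (n + 1 + 1) (D.pMap (n + 1) (D.iMap (n + 1) (D.pMap n y))) = 0
    rw [(D.exact_iMap_pMap (n + 1)).apply_apply_eq_zero, map_zero]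

theorem Dat.cplx_projective [Module.Projective B D.V] (n : ℤ) : Projective (D.cplx.X n) :=
  inferInstanceAs (Projective (ModuleCat.of (DD B τ) (PT D n)))

theorem Dat.cplx_kernel (n : ℤ) :
    Nonempty (ModuleCat.of (DD B τ) (GT D n) ≅ kernel (D.cplx.d n (n + 1))) := by
  have hS := D.sc_shortExact n
  have hm : Mono (ModuleCat.ofHom (D.iMap (n + 1))) :=
    (ModuleCat.mono_iff_injective _).2 (D.iMap_injective (n + 1))
  have hk := @isKernelCompMono _ _ _ _ _ _ _ hS.fIsKernel _ (ModuleCat.ofHom (D.iMap (n + 1)))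
    hm (D.cplx.d n (n + 1)) (D.cplx_d n)
  exact ⟨hk.conePointUniqueUpToIso (limit.isLimit _)⟩

end

end H54
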