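import Pool.Agent.H54.DGP.Complexes

/-!
# A criterion for non-deconstructibility
-/

universe u

open CategoryTheory CategoryTheory.Limits DGP

namespace H54

section filtration

variable {R : Type u} [Ring R]

/-- In a filtration of `M` with a nonzero map `π : M → Y`, some member of the family has a
nonzero map to `Y`, and is killed by everything that kills `M`. -/
theorem exists_of_filtered {ι : Type u} {S : ι → ModuleCat.{u} R} {M : ModuleCat.{u} R}
    (hM : Filtered S M) {Y : Type u} [AddCommGroup Y] [Module R Y] (π : M →ₗ[R] Y) (hπ : π ≠ 0) :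
    ∃ (i : ι) (ψ : S i →ₗ[R] Y), ψ ≠ 0 ∧ ∀ r : R, (∀ m : M, r • m = 0) → ∀ s : S i, r • s = 0 := by
  obtain ⟨σ, F, hF0, hFσ, hmono, hlim, hsucc⟩ := hM
  have hex : ∃ α, α ≤ σ ∧ ¬ F α ≤ LinearMap.ker π := by
    refine ⟨σ, le_rfl, ?_⟩
    rw [hFσ, top_le_iff]
    exact fun h => hπ (LinearMap.ker_eq_top.1 h)
  obtain ⟨α, ⟨hα, hαk⟩, hmin⟩ := WellFounded.has_min (wellFounded_lt (α := Ordinal.{u}))
    {α | α ≤ σ ∧ ¬ F α ≤ LinearMap.ker π} hex
  have hmin' : ∀ β < α, F β ≤ LinearMap.ker π := by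
    intro β hβ
    by_contra hc
    exact hmin β ⟨hβ.le.trans hα, hc⟩ hβ
  rcases Ordinal.zero_or_succ_or_isSuccLimit α with h0 | ⟨β, hβ⟩ | hl
  · subst h0
    exact absurd (hF0 ▸ bot_le) hαk
  · subst hβ
    have hβσ : β < σ := (Order.lt_succ β).trans_le hα
    obtain ⟨i, ⟨e⟩⟩ := hsucc β hβσ
    have hker : F β ≤ LinearMap.ker π := hmin' β (Order.lt_succ β)
    let ρ : ↥(F (Order.succ β)) →ₗ[R] Y := π ∘ₗ (F (Order.succ β)).subtype
    have hρ : (F β).submoduleOf (F (Order.succ β)) ≤ LinearMap.ker ρ := by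
      intro x hx
      exact hker hx
    let ρ' := Submodule.liftQ _ ρ hρ
    refine ⟨i, ρ' ∘ₗ e.inv.hom, ?_, ?_⟩
    · intro h
      apply hαk
      intro x hx
      have h1 : ρ' (Submodule.Quotient.mk ⟨x, hx⟩) = π x := rfl
      have h2 : e.inv.hom (e.hom.hom (Submodule.Quotient.mk ⟨x, hx⟩)) =
        Submodule.Quotient.mk ⟨x, hx⟩ := by
        rw [← ModuleCat.comp_apply, e.hom_inv_id]; rfl
      have h3 := LinearMap.congr_fun h (e.hom.hom (Submodule.Quotient.mk ⟨x, hx⟩))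
      rw [LinearMap.comp_apply, h2, h1] at h3
      exact h3
    · intro r hr s
      have h1 : ∀ q : ↥(F (Order.succ β)) ⧸ (F β).submoduleOf (F (Order.succ β)), r • q = 0 := by
        intro q
        obtain ⟨x, rfl⟩ := Submodule.Quotient.mk_surjective _ q
        rw [← Submodule.Quotient.mk_smul]
        have : r • x = 0 := Subtype.ext (hr x.1)
        rw [this]; rfl
      have h2 : e.hom.hom (e.inv.hom s) = s := by
        rw [← ModuleCat.comp_apply, e.inv_hom_id]; rfl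
      rw [← h2, ← map_smul, h1, map_zero]
  · exact absurd ((hlim α hα hl).le.trans (iSup_le fun β => hmin' β.1 β.2)) hαk

end filtration

section criterion

variable {S : Type u} [Ring S]

theorem two_of (hS : (1 : S) + 1 = 0) (N : Type u) [AddCommGroup N] [Module S N] (v : N) :
    v + v = 0 := by
  have : ((1 : S) + 1) • v = 0 := by rw [hS, zero_smul]
  rwa [add_smul, one_smul] at this

/-- The module `N` placed at the vertex `n`, over the ring of graded differential operators. -/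
abbrev vtx (hS : (1 : S) + 1 = 0) (n : ℤ) (N : ModuleCat.{u} S) :
    ModuleCat.{u} (DD (ℤ → S) (shift S)) :=
  ModuleCat.of _ (GT (dat₀ (S := S) N (two_of hS N)) n)

/-- The class of the modules `N ∈ 𝒩`, placed at the vertex `-1`. -/
def vclass (hS : (1 : S) + 1 = 0) (𝒩 : Set (ModuleCat.{u} S)) :
    Set (ModuleCat.{u} (DD (ℤ → S) (shift S))) :=
  {X | ∃ N ∈ 𝒩, X = vtx hS (-1) N}

/-- The module associated to a complex. -/
noncomputable abbrev Cpx.gor (C : Cpx S) (n : ℤ) : ModuleCat.{u} (DD (ℤ → S) (shift S)) :=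
  ModuleCat.of _ (GT C.dat n)

theorem Cpx.ext_gor (hS : (1 : S) + 1 = 0) (C : Cpx S) [∀ j, Module.Projective S (C.F j)]
    (n : ℤ) (N : ModuleCat.{u} S)
    (h0 : n = 0 → ∀ g : C.F 0 →ₗ[S] N, (∀ x, g (C.δ 0 x) = 0) → g = 0)
    (h1 : ∀ j : ℕ, n + (j + 1) = 0 → ∀ g : C.F (j + 1) →ₗ[S] N,
      (∀ x, g (C.δ (j + 1) x) = 0) → ∃ h : C.F j →ₗ[S] N, ∀ x, g x = h (C.δ j x)) :
    Subsingleton (Abelian.Ext (C.gor n) (vtx hS (-1) N) 1) := by
  obtain ⟨m, rfl⟩ : ∃ m, n = m + 1 := ⟨n - 1, by ring⟩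
  have := C.projective_dat
  have : Projective (C.dat.sc m).X₂ := C.dat.cplx_projective m
  refine ext_subsingleton_of_lift (C.dat.sc_shortExact m) _ fun f => ?_
  obtain ⟨f', hf'⟩ := exists_extension C (two_of hS N) m (-1) (fun h => h0 (by omega))
    (fun j hj => h1 j (by omega)) f.hom
  refine ⟨ModuleCat.ofHom f', ?_⟩
  ext x
  exact LinearMap.congr_fun hf' x

/-- The augmentation, as a map over the ring of graded differential operators. -/
noncomputable def Cpx.aug (C : Cpx S) {M : Type u} [AddCommGroup M] [Module S M]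
    (two : ∀ v : M, v + v = 0) (a : C.F 0 →ₗ[S] M) (ha : ∀ x, a (C.δ 0 x) = 0) :
    GT C.dat 0 →ₗ[DD (ℤ → S) (shift S)] GT (dat₀ (S := S) M two) 0 where
  toFun x := mk₀ two 0 (a (C.comp 0 (C.dat.gval 0 x)))
  map_add' x y := by
    rw [← map_add (mk₀ (S := S) two 0), ← map_add, ← map_add]
    rfl
  map_smul' x v := by
    change a (C.comp 0 (((shift S) ^ (0 : ℤ)) x.fst • (C.dat.gval 0 v) +
      ((shift S) ^ (0 : ℤ)) x.snd • (C.dat.d (C.dat.gval 0 v)))) =
      val₀ (S := S) two (x • mk₀ two 0 (a (C.comp 0 (C.dat.gval 0 v))))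
    rw [val₀_smul, map_add, C.comp_smul, C.comp_smul, C.comp_d, map_add, a.map_smul, a.map_smul,
      ha, smul_zero, add_zero, shift_zpow_apply]
    simp

theorem Cpx.kill (C : Cpx S) (x : GT C.dat 0) :
    (DD.inl (Pi.single (-1) 1) : DD (ℤ → S) (shift S)) • x = 0 := by
  change (((shift S) ^ (0 : ℤ)) (Pi.single (-1) 1) • (C.dat.gval 0 x) +
    ((shift S) ^ (0 : ℤ)) 0 • (C.dat.d (C.dat.gval 0 x)) : C.dat.V) = 0
  rw [map_zero, zero_smul, add_zero]
  apply C.ext_comp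
  intro j
  rw [C.comp_smul, shift_zpow_apply, Pi.single_eq_of_ne (by omega), zero_smul, map_zero]

/-- A module killed by the idempotent of the vertex `-1` has no nonzero map to a module at the
vertex `0` that lifts. -/
theorem eq_zero_of_lift {N : Type u} [AddCommGroup N] [Module S N] (two : ∀ v : N, v + v = 0)
    (G : ModuleCat.{u} (DD (ℤ → S) (shift S)))
    (hG : ∀ s : G, (DD.inl (Pi.single (-1) 1) : DD (ℤ → S) (shift S)) • s = 0)
    [Subsingleton (Abelian.Ext G (ModuleCat.of _ (GT (dat₀ (S := S) N two) (-1))) 1)]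
    (n : ℤ) (hn : n = -1 + 1)
    (ψ : G →ₗ[DD (ℤ → S) (shift S)] GT (dat₀ (S := S) N two) n) : ψ = 0 := by
  subst hn
  let D := dat₀ (S := S) N two
  have : Subsingleton (Abelian.Ext G (D.sc (-1)).X₁ 1) := by assumption
  obtain ⟨φ, hφ⟩ := exists_lift_of_ext (D.sc_shortExact (-1)) G (ModuleCat.ofHom ψ)
  have hφ' : ∀ s : G, ψ s = D.pMap (-1) (φ.hom s) := fun s =>
    (congrArg (fun f : G ⟶ _ => f.hom s) hφ).symm
  ext s : 1
  -- apply `d` and the idempotent
  have h1 : (DD.inl (Pi.single (-1) 1) : DD (ℤ → S) (shift S)) • φ.hom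
      ((DD.inr 1 : DD (ℤ → S) (shift S)) • s) = 0 := by
    rw [← map_smul, hG, map_zero]
  rw [map_smul] at h1
  have h2 := congrArg Prod.snd h1
  let v : N := (D.pval (-1) (φ.hom s)).1
  let w : N := (D.pval (-1) (φ.hom s)).2
  have h3 : ((shift S) ^ (-1 : ℤ)) (Pi.single (-1) 1) 0 •
      (((shift S) ^ (-1 : ℤ)) 0 0 • w + ((shift S) ^ (-1 : ℤ)) 1 0 • v) +
      ((shift S) ^ (-1 : ℤ)) 0 0 • (((shift S) ^ ((-1 : ℤ) + 1)) 0 0 • v) = 0 := h2
  simp only [shift_zpow_apply, zero_add, Pi.single_eq_same, Pi.zero_apply, Pi.one_apply,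
    zero_smul, one_smul, add_zero, map_one] at h3
  rw [hφ']
  have h4 : D.pMap (-1) (φ.hom s) = D.gmk (-1 + 1) ((D.pval (-1) (φ.hom s)).1 + 0) := rfl
  rw [h4, add_zero]
  exact h3

/-- The criterion. -/
theorem not_deconstructible (hS : (1 : S) + 1 = 0) (𝒩 : Set (ModuleCat.{u} S))
    (𝒟 : Set (ModuleCat.{u} (DD (ℤ → S) (shift S))))
    (h𝒟 : 𝒟 ⊆ PerpOne (vclass hS 𝒩))
    (hbig : ∀ (ι : Type u) (T : ι → ModuleCat.{u} (DD (ℤ → S) (shift S))),
      ∃ (C : Cpx S) (M : ModuleCat.{u} S) (a : C.F 0 →ₗ[S] M), C.gor 0 ∈ 𝒟 ∧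
        (∀ x, a (C.δ 0 x) = 0) ∧ Function.Surjective a ∧ (∃ m : M, m ≠ 0) ∧
        ∀ (i : ι) (f : T i → M), ∃ (N : ModuleCat.{u} S) (j : N →ₗ[S] M), N ∈ 𝒩 ∧
          Function.Injective j ∧ Set.range f ⊆ Set.range j) :
    ¬ Deconstructible 𝒟 := by
  rintro ⟨ι, T, hT, hfil⟩
  obtain ⟨C, M, a, hC, ha, hsurj, ⟨m, hm⟩, hN⟩ := hbig ι T
  have twoM := two_of hS M
  let π := C.aug twoM a ha
  have hπ : π ≠ 0 := by
    intro h
    obtain ⟨y, hy⟩ := hsurj m
    have h1 : π (C.dat.gmk 0 (C.single 0 y)) = mk₀ (S := S) twoM 0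
      (a (C.comp 0 (C.single 0 y))) := rfl
    rw [C.comp_single_same, hy, h] at h1
    exact hm h1.symm
  obtain ⟨i, ψ, hψ, hkill⟩ := exists_of_filtered (hfil _ hC) π hπ
  apply hψ
  obtain ⟨N, j, hN𝒩, hj, hrange⟩ := hN i (fun s => val₀ (S := S) twoM (ψ s))
  have twoN := two_of hS N
  -- factor `ψ` through `N`
  have hfac : ∀ s, ∃ y : N, j y = val₀ (S := S) twoM (ψ s) := fun s =>
    hrange ⟨s, rfl⟩
  choose g hg using hfac
  let ψ' : T i →ₗ[DD (ℤ → S) (shift S)] GT (dat₀ (S := S) N twoN) 0 :=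
    { toFun := fun s => mk₀ twoN 0 (g s)
      map_add' := fun s t => by
        rw [← map_add (mk₀ (S := S) twoN 0)]
        congr 1
        apply hj
        rw [hg, map_add, map_add, map_add, hg, hg]
      map_smul' := fun r s => by
        change g (r • s) = val₀ (S := S) twoN (r • mk₀ twoN 0 (g s))
        rw [val₀_smul]
        apply hj
        rw [hg, map_smul, val₀_smul, j.map_smul]
        congr 1
        exact (hg s).symm }
  have : Subsingleton (Abelian.Ext (T i)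
      (ModuleCat.of _ (GT (dat₀ (S := S) N twoN) (-1))) 1) :=
    h𝒟 (hT i) _ ⟨N, hN𝒩, rfl⟩
  have hz : ψ' = 0 := eq_zero_of_lift twoN (T i) (fun s => hkill _ C.kill s) 0 (by norm_num) ψ'
  ext s : 1
  have h1 : g s = 0 := LinearMap.congr_fun hz s
  have h2 := hg s
  rw [h1, map_zero] at h2
  exact h2.symm

end criterion

end H54
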