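import Mathlib

/-!
# The category of structures on a fixed set with elementary embeddings
-/

universe u

open FirstOrder FirstOrder.Language

namespace H54

variable (L : FirstOrder.Language.{u, u}) (Λ : Type u)

/-- Elementary embeddings between two structures with universe `Λ`. -/
structure Mor : Type u where
  src : L.Structure Λ
  tgt : L.Structure Λ
  emb : @ElementaryEmbedding L Λ Λ src tgt

/-- Elementary embeddings from a structure with universe `Λ` to `A`. -/
structure El (A : Type u) [L.Structure A] : Type u where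
  str : L.Structure Λ
  emb : @ElementaryEmbedding L Λ A str _

variable {L Λ}

/-- The underlying function. -/
def Mor.fn (m : Mor L Λ) : Λ → Λ := @ElementaryEmbedding.toFun L Λ Λ m.src m.tgt m.emb

theorem Mor.injective (m : Mor L Λ) : Function.Injective m.fn :=
  @ElementaryEmbedding.injective L Λ Λ m.src m.tgt m.emb

theorem Mor.realize (m : Mor L Λ) ⦃n : ℕ⦄ (φ : L.Formula (Fin n)) (v : Fin n → Λ) :
    @Formula.Realize L Λ m.tgt _ φ (m.fn ∘ v) ↔ @Formula.Realize L Λ m.src _ φ v :=
  @ElementaryEmbedding.map_formula' L Λ Λ m.src m.tgt m.emb n φ v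

theorem Mor.ext' {m m' : Mor L Λ} (h1 : m.src = m'.src) (h2 : m.tgt = m'.tgt)
    (h3 : m.fn = m'.fn) : m = m' := by
  cases m with | mk s t e =>
  cases m' with | mk s' t' e' =>
  cases h1
  cases h2
  congr 1
  exact @ElementaryEmbedding.coe_injective L Λ Λ s t _ _ h3

namespace El

variable {A : Type u} [L.Structure A]

/-- The underlying function. -/
def fn (x : El L Λ A) : Λ → A := @ElementaryEmbedding.toFun L Λ A x.str _ x.emb

theorem injective (x : El L Λ A) : Function.Injective x.fn :=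
  @ElementaryEmbedding.injective L Λ A x.str _ x.emb

theorem realize (x : El L Λ A) ⦃n : ℕ⦄ (φ : L.Formula (Fin n)) (v : Fin n → Λ) :
    φ.Realize (x.fn ∘ v) ↔ @Formula.Realize L Λ x.str _ φ v :=
  @ElementaryEmbedding.map_formula' L Λ A x.str _ x.emb n φ v

theorem ext' {x y : El L Λ A} (h1 : x.str = y.str) (h2 : x.fn = y.fn) : x = y := by
  cases x with | mk s e =>
  cases y with | mk s' e' =>
  cases h1
  congr 1
  exact @ElementaryEmbedding.coe_injective L Λ A s _ _ _ h2

end El

open Classical in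
/-- Composition `m` then `m'`, if the source of `m'` is the target of `m`. -/
noncomputable def Mor.comp (m m' : Mor L Λ) : Option (Mor L Λ) :=
  if h : m.tgt = m'.src then
    some ⟨m.src, m'.tgt, @ElementaryEmbedding.mk L Λ Λ m.src m'.tgt (m'.fn ∘ m.fn) (by
      intro n φ v
      rw [Function.comp_assoc, m'.realize, ← h, m.realize])⟩
  else none

open Classical in
/-- The action of `m` on `x`: composition with `m`, if the structure of `x` is the target of
`m`. -/
noncomputable def El.act {A : Type u} [L.Structure A] (m : Mor L Λ) (x : El L Λ A) :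
    Option (El L Λ A) :=
  if h : m.tgt = x.str then
    some ⟨m.src, @ElementaryEmbedding.mk L Λ A m.src _ (x.fn ∘ m.fn) (by
      intro n φ v
      rw [Function.comp_assoc, x.realize, ← h, m.realize])⟩
  else none

theorem Mor.comp_eq_some {m m' c : Mor L Λ} :
    m.comp m' = some c ↔ m.tgt = m'.src ∧ c.src = m.src ∧ c.tgt = m'.tgt ∧
      c.fn = m'.fn ∘ m.fn := by
  unfold Mor.comp
  constructor
  · intro h
    split_ifs at h with h1
    · cases h
      exact ⟨h1, rfl, rfl, rfl⟩
  · rintro ⟨h1, h2, h3, h4⟩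
    rw [dif_pos h1]
    congr 1
    exact Mor.ext' h2.symm h3.symm h4.symm

theorem El.act_eq_some {A : Type u} [L.Structure A] {m : Mor L Λ} {x y : El L Λ A} :
    El.act m x = some y ↔ m.tgt = x.str ∧ y.str = m.src ∧ y.fn = x.fn ∘ m.fn := by
  unfold El.act
  constructor
  · intro h
    split_ifs at h with h1
    · cases h
      exact ⟨h1, rfl, rfl⟩
  · rintro ⟨h1, h2, h3⟩
    rw [dif_pos h1]
    congr 1
    exact El.ext' h2.symm h3.symm

theorem El.act_isSome {A : Type u} [L.Structure A] {m : Mor L Λ} {x : El L Λ A}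
    (h : m.tgt = x.str) : ∃ y, El.act m x = some y := by
  unfold El.act
  rw [dif_pos h]
  exact ⟨_, rfl⟩

theorem Mor.comp_isSome {m m' : Mor L Λ} (h : m.tgt = m'.src) : ∃ c, m.comp m' = some c := by
  unfold Mor.comp
  rw [dif_pos h]
  exact ⟨_, rfl⟩

variable (L Λ) in
/-- A set with a partial action of the category `Mor`. -/
structure PSet : Type (u + 1) where
  Y : Type u
  a : Mor L Λ → Y → Option Y
  assoc : ∀ m m' y, (a m' y).bind (a m) = (m.comp m').bind fun c => a c y

/-- The action on the elementary embeddings to a structure. -/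
noncomputable def El.pset (A : Type u) [L.Structure A] : PSet L Λ where
  Y := El L Λ A
  a := El.act
  assoc m m' x := by
    ext z
    simp only [Option.bind_eq_some_iff]
    constructor
    · rintro ⟨y, hy, hz⟩
      obtain ⟨h1, h2, h3⟩ := El.act_eq_some.1 hy
      obtain ⟨h4, h5, h6⟩ := El.act_eq_some.1 hz
      obtain ⟨c, hc⟩ := Mor.comp_isSome (h4.trans h2)
      obtain ⟨h7, h8, h9, h10⟩ := Mor.comp_eq_some.1 hc
      refine ⟨c, hc, El.act_eq_some.2 ⟨h9.trans h1, h5.trans h8.symm, ?_⟩⟩
      rw [h6, h3, h10]; rfl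
    · rintro ⟨c, hc, hz⟩
      obtain ⟨h7, h8, h9, h10⟩ := Mor.comp_eq_some.1 hc
      obtain ⟨h4, h5, h6⟩ := El.act_eq_some.1 hz
      obtain ⟨y, hy⟩ := El.act_isSome (h9.symm.trans h4)
      obtain ⟨h1, h2, h3⟩ := El.act_eq_some.1 hy
      refine ⟨y, hy, El.act_eq_some.2 ⟨h7.trans h2.symm, h5.trans h8, ?_⟩⟩
      rw [h6, h3, h10]; rfl

section order

variable {A : Type u} [L.Structure A]

/-- `x ≤ y` if the range of `x` is contained in the range of `y`. -/
def El.le (x y : El L Λ A) : Prop := Set.range x.fn ⊆ Set.range y.fn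

theorem El.le_refl (x : El L Λ A) : x.le x := subset_rfl

theorem El.le_trans {x y z : El L Λ A} (h : x.le y) (h' : y.le z) : x.le z := h.trans h'

/-- The morphism `x → y` if `x ≤ y`. -/
noncomputable def El.tr {x y : El L Λ A} (h : x.le y) : Mor L Λ :=
  ⟨x.str, y.str, @ElementaryEmbedding.mk L Λ Λ x.str y.str (fun l => (h ⟨l, rfl⟩).choose) (by
    intro n φ v
    rw [← y.realize, ← x.realize]
    have : y.fn ∘ (fun l => (h ⟨l, rfl⟩).choose) ∘ v = x.fn ∘ v := by
      ext i
      exact (h ⟨v i, rfl⟩).choose_spec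
    rw [this])⟩

theorem El.tr_fn {x y : El L Λ A} (h : x.le y) (l : Λ) : y.fn ((El.tr h).fn l) = x.fn l :=
  (h ⟨l, rfl⟩).choose_spec

theorem El.act_tr {x y : El L Λ A} (h : x.le y) : El.act (El.tr h) y = some x :=
  El.act_eq_some.2 ⟨rfl, rfl, by ext l; exact (El.tr_fn h l).symm⟩

theorem El.tr_comp {x y z : El L Λ A} (h : x.le y) (h' : y.le z) :
    (El.tr h).comp (El.tr h') = some (El.tr (El.le_trans h h')) := by
  refine Mor.comp_eq_some.2 ⟨rfl, rfl, rfl, ?_⟩
  ext l
  apply z.injective
  rw [El.tr_fn (El.le_trans h h'), Function.comp_apply, El.tr_fn, El.tr_fn]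

/-- Existence of elements with large range (Löwenheim-Skolem). -/
theorem El.exists_ge (hΛ : Cardinal.aleph0 ≤ Cardinal.mk Λ) (hL : L.card ≤ Cardinal.mk Λ)
    (hA : Cardinal.mk Λ ≤ Cardinal.mk A) (s : Set A) (hs : Cardinal.mk s ≤ Cardinal.mk Λ) :
    ∃ x : El L Λ A, s ⊆ Set.range x.fn := by
  obtain ⟨T, hT, hcard⟩ := exists_elementarySubstructure_card_eq L s (Cardinal.mk Λ) hΛ
    (by simpa using hs) (by simpa using hL) (by simpa using hA)
  have hcard' : Cardinal.mk T = Cardinal.mk Λ := by simpa using hcard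
  obtain ⟨e⟩ := Cardinal.eq.1 hcard'
  let : L.Structure Λ := e.inducedStructure
  let e' : T ≃[L] Λ := e.inducedStructureEquiv
  let f : Λ ↪ₑ[L] A := T.subtype.comp e'.symm.toElementaryEmbedding
  refine ⟨⟨_, f⟩, ?_⟩
  intro a ha
  refine ⟨e ⟨a, hT ha⟩, ?_⟩
  change T.subtype (e.symm (e ⟨a, hT ha⟩)) = a
  simp

theorem El.mk_range_le (x : El L Λ A) : Cardinal.mk (Set.range x.fn) ≤ Cardinal.mk Λ :=
  Cardinal.mk_range_le

/-- The order is directed, for families indexed by sets of size at most `Λ`. -/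
theorem El.exists_ge_family (hΛ : Cardinal.aleph0 ≤ Cardinal.mk Λ)
    (hL : L.card ≤ Cardinal.mk Λ) (hA : Cardinal.mk Λ ≤ Cardinal.mk A) {ι : Type u}
    (hι : Cardinal.mk ι ≤ Cardinal.mk Λ) (x : ι → El L Λ A) : ∃ y : El L Λ A, ∀ i, (x i).le y := by
  obtain ⟨y, hy⟩ := El.exists_ge hΛ hL hA (⋃ i, Set.range (x i).fn) (by
    refine (Cardinal.mk_iUnion_le _).trans ?_
    calc Cardinal.mk ι * ⨆ i, Cardinal.mk (Set.range (x i).fn)
        ≤ Cardinal.mk Λ * Cardinal.mk Λ := by
          gcongr
          exact ciSup_le' fun i => (x i).mk_range_le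
      _ = Cardinal.mk Λ := Cardinal.mul_eq_self hΛ)
  exact ⟨y, fun i => (Set.subset_iUnion (fun i => Set.range (x i).fn) i).trans hy⟩

end order

end H54
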