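import Pool.Agent.H54.DGP.TwistRing

/-!
# Complexes of modules over `S` as differential modules over `ℤ → S`
-/

universe u

namespace H54

open DD

variable {S : Type u} [Ring S]

/-- The shift automorphism of the ring of sequences. -/
def shift (S : Type u) [Ring S] : RingAut (ℤ → S) where
  toFun b i := b (i + 1)
  invFun b i := b (i - 1)
  left_inv b := by ext i; simp
  right_inv b := by ext i; simp
  map_add' _ _ := rfl
  map_mul' _ _ := rfl

theorem shift_apply (b : ℤ → S) (i : ℤ) : shift S b i = b (i + 1) := rfl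

theorem shift_inv_apply (b : ℤ → S) (i : ℤ) : (shift S)⁻¹ b i = b (i - 1) := rfl

theorem shift_zpow_apply (n : ℤ) (b : ℤ → S) (i : ℤ) : ((shift S) ^ n) b i = b (i + n) := by
  induction n using Int.induction_on generalizing b i with
  | zero => simp
  | succ n ih => rw [zpow_succ_apply, shift_apply, ih]; congr 1; ring
  | pred n ih =>
    rw [sub_eq_add_neg, add_comm, zpow_add, zpow_neg_one, RingAut.mul_apply, shift_inv_apply, ih]
    congr 1; ring

/-- The `S`-module `M` placed at the vertex `n`. -/
def At (_n : ℤ) (M : Type u) : Type u := M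

namespace At

variable {n : ℤ} {M : Type u} [AddCommGroup M] [Module S M]

instance : AddCommGroup (At n M) := inferInstanceAs (AddCommGroup M)

/-- The identity, into `At`. -/
def mk (n : ℤ) : M →+ At n M := AddMonoidHom.id M

/-- The identity, out of `At`. -/
def val : At n M →+ M := AddMonoidHom.id M

@[simp] theorem val_mk (m : M) : (mk n m).val = m := rfl
@[simp] theorem mk_val (m : At n M) : mk n m.val = m := rfl

instance : Module (ℤ → S) (At n M) :=
  Module.compHom M (Pi.evalRingHom (fun _ : ℤ => S) n)

theorem smul_mk (b : ℤ → S) (m : M) : b • mk n m = mk n (b n • m) := rfl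

theorem val_smul (b : ℤ → S) (m : At n M) : (b • m).val = b n • m.val := rfl

end At

theorem projective_At (n : ℤ) (M : Type u) [AddCommGroup M] [Module S M]
    [Module.Projective S M] : Module.Projective (ℤ → S) (At n M) := by
  refine Module.Projective.of_lifting_property'' ?_
  intro f hf
  have hQ : ∀ (s : S) (q : At n M →₀ (ℤ → S)), s • q = (Function.const ℤ s : ℤ → S) • q := by
    intro s q
    ext m i
    simp
  let fM : (At n M →₀ (ℤ → S)) →ₗ[S] M :=
    { toFun := fun q => (f q).val
      map_add' := fun a b => by rw [f.map_add, map_add]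
      map_smul' := fun s q => by
        rw [hQ, f.map_smul]
        exact At.val_smul _ _ }
  obtain ⟨g, hg⟩ := Module.projective_lifting_property fM LinearMap.id
    (fun m => by
      obtain ⟨q, hq⟩ := hf (At.mk n m)
      exact ⟨q, by change (f q).val = m; rw [hq]; rfl⟩)
  have hg' : ∀ m : M, f (g m) = At.mk n m := fun m => LinearMap.congr_fun hg m
  let e : ℤ → S := Pi.single n 1
  have hcomm : ∀ b : ℤ → S, e * Function.const ℤ (b n) = b * e := by
    intro b
    ext i
    by_cases hi : i = n
    · subst hi; simp [e]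
    · simp [e, hi]
  let h : At n M →ₗ[ℤ → S] (At n M →₀ (ℤ → S)) :=
    { toFun := fun m => e • g m.val
      map_add' := fun a b => by
        rw [map_add, g.map_add, smul_add]
      map_smul' := fun b m => by
        rw [At.val_smul, g.map_smul, hQ, ← mul_smul, hcomm, mul_smul]
        rfl }
  refine ⟨h, ?_⟩
  ext m : 1
  change f (e • g m.val) = m
  rw [map_smul, hg' m.val, At.smul_mk]
  simp [e]

/-- A complex of modules, bounded on the right, of characteristic two. -/
structure Cpx (S : Type u) [Ring S] where
  F : ℕ → Type u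
  [grp : ∀ j, AddCommGroup (F j)]
  [mod : ∀ j, Module S (F j)]
  δ : ∀ j, F (j + 1) →ₗ[S] F j
  δ_δ : ∀ j x, δ j (δ (j + 1) x) = 0
  two : ∀ j (v : F j), v + v = 0

attribute [instance] Cpx.grp Cpx.mod

namespace Cpx

variable (C : Cpx S)

/-- The total module. -/
abbrev Tot : Type u := Π₀ j : ℕ, At (j : ℤ) (C.F j)

/-- The differential between consecutive pieces, as additive map. -/
def δAt (j : ℕ) : At ((j + 1 : ℕ) : ℤ) (C.F (j + 1)) →+ At (j : ℤ) (C.F j) :=
  (At.mk (j : ℤ)).comp ((C.δ j).toAddMonoidHom.comp At.val)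

theorem δAt_apply (j : ℕ) (x : At ((j + 1 : ℕ) : ℤ) (C.F (j + 1))) :
    C.δAt j x = At.mk _ (C.δ j x.val) := rfl

theorem succ_inj' : Function.Injective (fun j : ℕ => j + 1) := fun a b h => by simpa using h

/-- The differential on the total module. -/
noncomputable def dTot : C.Tot →+ C.Tot where
  toFun x := DFinsupp.mapRange (fun j => C.δAt j) (fun j => map_zero _)
    (DFinsupp.comapDomain (fun j => j + 1) succ_inj' x)
  map_zero' := by
    ext j
    rw [DFinsupp.mapRange_apply, DFinsupp.comapDomain_apply]
    exact map_zero (C.δAt j)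
  map_add' x y := by
    ext j
    rw [DFinsupp.add_apply, DFinsupp.mapRange_apply, DFinsupp.mapRange_apply,
      DFinsupp.mapRange_apply, DFinsupp.comapDomain_apply, DFinsupp.comapDomain_apply,
      DFinsupp.comapDomain_apply, DFinsupp.add_apply]
    exact map_add (C.δAt j) _ _

theorem dTot_apply (x : C.Tot) (j : ℕ) : C.dTot x j = C.δAt j (x (j + 1)) := by
  change DFinsupp.mapRange (fun j => C.δAt j) (fun j => map_zero _)
    (DFinsupp.comapDomain (fun j => j + 1) succ_inj' x) j = _
  rw [DFinsupp.mapRange_apply, DFinsupp.comapDomain_apply]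

/-- The total differential module. -/
noncomputable def dat : Dat (ℤ → S) (shift S) where
  V := C.Tot
  d := C.dTot
  d_smul b x := by
    ext j
    rw [dTot_apply, DFinsupp.smul_apply, DFinsupp.smul_apply, dTot_apply, δAt_apply, δAt_apply,
      At.val_smul, (C.δ j).map_smul, At.smul_mk, shift_apply]
    push_cast
    rfl
  d_d x := by
    ext j
    rw [dTot_apply, dTot_apply, δAt_apply, δAt_apply, At.val_mk, C.δ_δ]
    rfl
  two x := by
    ext j
    rw [DFinsupp.add_apply]
    exact C.two j _

theorem projective_dat [∀ j, Module.Projective S (C.F j)] :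
    Module.Projective (ℤ → S) C.dat.V := by
  have : ∀ j : ℕ, Module.Projective (ℤ → S) (At (j : ℤ) (C.F j)) :=
    fun j => projective_At _ _
  exact inferInstanceAs (Module.Projective (ℤ → S) (Π₀ j : ℕ, At (j : ℤ) (C.F j)))

end Cpx

/-- A module with zero differential at the vertex `0`. -/
def dat₀ (N : Type u) [AddCommGroup N] [Module S N] (two : ∀ v : N, v + v = 0) :
    Dat (ℤ → S) (shift S) where
  V := At 0 N
  d := 0
  d_smul _ _ := by simp
  d_d _ := rfl
  two := two

section

variable (C : Cpx S) {N : Type u} [AddCommGroup N] [Module S N] (two : ∀ v : N, v + v = 0)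

/-- Underlying element in `N`. -/
def val₀ {m : ℤ} : GT (dat₀ (S := S) N two) m →+ N := AddMonoidHom.id N

/-- The element of the twist given by an element in `N`. -/
def mk₀ (m : ℤ) : N →+ GT (dat₀ (S := S) N two) m := AddMonoidHom.id N

@[simp] theorem val₀_mk₀ (m : ℤ) (v : N) : val₀ (S := S) two (mk₀ two m v) = v := rfl
@[simp] theorem mk₀_val₀ (m : ℤ) (v : GT (dat₀ (S := S) N two) m) :
    mk₀ two m (val₀ two v) = v := rfl

theorem val₀_smul (m : ℤ) (x : DD (ℤ → S) (shift S)) (v : GT (dat₀ (S := S) N two) m) :
    val₀ two (x • v) = x.fst m • val₀ two v := by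
  have h : val₀ two (x • v) = ((shift S) ^ m) x.fst 0 • val₀ two v +
    ((shift S) ^ m) x.snd 0 • (0 : N) := rfl
  rw [h, shift_zpow_apply]
  simp

/-- The element supported in degree `j`. -/
noncomputable def Cpx.single (j : ℕ) : C.F j →+ C.dat.V :=
  (DFinsupp.singleAddHom (fun j : ℕ => At (j : ℤ) (C.F j)) j).comp (At.mk (j : ℤ))

/-- The component of degree `j`. -/
noncomputable def Cpx.comp (j : ℕ) : C.dat.V →+ C.F j :=
  At.val.comp (DFinsupp.evalAddMonoidHom (β := fun j : ℕ => At (j : ℤ) (C.F j)) j)

theorem Cpx.comp_smul (j : ℕ) (b : ℤ → S) (v : C.dat.V) :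
    C.comp j (b • v) = b j • C.comp j v := rfl

theorem Cpx.comp_d (j : ℕ) (v : C.dat.V) : C.comp j (C.dat.d v) = C.δ j (C.comp (j + 1) v) := by
  exact congrArg At.val (C.dTot_apply v j)

theorem Cpx.comp_single_same (j : ℕ) (v : C.F j) : C.comp j (C.single j v) = v :=
  congrArg At.val (DFinsupp.single_eq_same (β := fun j : ℕ => At (j : ℤ) (C.F j)))

theorem Cpx.comp_single_ne {i j : ℕ} (h : i ≠ j) (v : C.F j) : C.comp i (C.single j v) = 0 :=
  congrArg At.val (DFinsupp.single_eq_of_ne (β := fun j : ℕ => At (j : ℤ) (C.F j)) h)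

theorem Cpx.ext_comp {v w : C.dat.V} (h : ∀ j, C.comp j v = C.comp j w) : v = w :=
  DFinsupp.ext (β := fun j : ℕ => At (j : ℤ) (C.F j)) h

theorem Cpx.smul_single (b : ℤ → S) (j : ℕ) (v : C.F j) :
    b • C.single j v = C.single j (b j • v) := by
  apply C.ext_comp
  intro i
  rw [C.comp_smul]
  by_cases h : i = j
  · subst h; rw [C.comp_single_same, C.comp_single_same]
  · rw [C.comp_single_ne h, C.comp_single_ne h, smul_zero]

theorem Cpx.d_single_succ (j : ℕ) (v : C.F (j + 1)) :
    C.dat.d (C.single (j + 1) v) = C.single j (C.δ j v) := by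
  apply C.ext_comp
  intro i
  rw [C.comp_d]
  by_cases h : i = j
  · subst h; rw [C.comp_single_same, C.comp_single_same]
  · rw [C.comp_single_ne h, C.comp_single_ne (by omega), map_zero]

theorem Cpx.induction {p : C.dat.V → Prop} (h0 : p 0) (hadd : ∀ v w, p v → p w → p (v + w))
    (hs : ∀ j v, p (C.single j v)) (v : C.dat.V) : p v := by
  classical
  refine DFinsupp.induction (β := fun j : ℕ => At (j : ℤ) (C.F j)) v h0 ?_
  intro i b f _ _ hf
  exact hadd _ _ (hs i b) hf

/-- The homomorphisms from a total module to a module concentrated at one vertex, extended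
to the projective cover, assuming vanishing of the cohomology of the complex of homomorphisms. -/
theorem exists_extension (n m : ℤ)
    (h0 : n = m → ∀ g : C.F 0 →ₗ[S] N, (∀ x, g (C.δ 0 x) = 0) → g = 0)
    (h1 : ∀ j : ℕ, n + (j + 1) = m → ∀ g : C.F (j + 1) →ₗ[S] N,
      (∀ x, g (C.δ (j + 1) x) = 0) → ∃ h : C.F j →ₗ[S] N, ∀ x, g x = h (C.δ j x))
    (f : GT C.dat n →ₗ[DD (ℤ → S) (shift S)] GT (dat₀ (S := S) N two) m) :
    ∃ f' : PT C.dat n →ₗ[DD (ℤ → S) (shift S)] GT (dat₀ (S := S) N two) m,
      f' ∘ₗ C.dat.iMap n = f := by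
  let fv : C.dat.V → N := fun v => val₀ two (f (C.dat.gmk n v))
  have fv_add : ∀ v w, fv (v + w) = fv v + fv w := fun v w => f.map_add _ _
  have fv_zero : fv 0 = 0 := f.map_zero
  have fv_smul : ∀ (b : ℤ → S) v, fv (((shift S) ^ n) b • v) = b m • fv v := by
    intro b v
    have := f.map_smul (DD.inl b) (C.dat.gmk n v)
    rw [Dat.gsmul_def] at this
    simp only [inl_fst, inl_snd, map_zero, zero_smul, add_zero] at this
    refine (congrArg (val₀ two) this).trans ?_
    exact val₀_smul two m (DD.inl b) _
  have fv_d : ∀ v, fv (C.dat.d v) = 0 := by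
    intro v
    have := f.map_smul (DD.inr 1) (C.dat.gmk n v)
    rw [Dat.gsmul_def] at this
    simp only [inr_fst, inr_snd, map_zero, map_one, one_smul, zero_smul, zero_add] at this
    refine (congrArg (val₀ two) this).trans ?_
    refine (val₀_smul two m (DD.inr 1) _).trans ?_
    simp
  have fv_ne : ∀ (j : ℕ) (v : C.F j), n + j ≠ m → fv (C.single j v) = 0 := by
    intro j v hj
    have e := fv_smul (Pi.single (n + j) 1) (C.single j v)
    rw [Cpx.smul_single, shift_zpow_apply] at e
    rw [add_comm (j : ℤ) n, Pi.single_eq_same, one_smul, Pi.single_eq_of_ne (Ne.symm hj),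
      zero_smul] at e
    exact e
  have fv_eq : ∀ (j : ℕ), n + j = m → ∃ g : C.F j →ₗ[S] N, ∀ v, g v = fv (C.single j v) := by
    intro j hj
    refine ⟨{ toFun := fun v => fv (C.single j v), map_add' := ?_, map_smul' := ?_ },
      fun v => rfl⟩
    · intro v w
      rw [map_add, fv_add]
    · intro s v
      have e := fv_smul (Function.const ℤ s) (C.single j v)
      rw [Cpx.smul_single, shift_zpow_apply] at e
      exact e
  have hg : ∀ (j : ℕ) (g : C.F j →ₗ[S] N), (∀ v, g v = fv (C.single j v)) →
      ∀ x, g (C.δ j x) = 0 := by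
    intro j g hg x
    rw [hg, ← Cpx.d_single_succ, fv_d]
  by_cases hnm : n = m
  · -- then `f = 0`
    obtain ⟨g, hg'⟩ := fv_eq 0 (by simpa using hnm)
    have hz := h0 hnm g (hg 0 g hg')
    refine ⟨0, ?_⟩
    rw [LinearMap.zero_comp]
    symm
    ext v : 1
    change fv v = 0
    refine C.induction (p := fun v => fv v = 0) fv_zero (fun v w hv hw => ?_) (fun j v => ?_) v
    · rw [fv_add, hv, hw, add_zero]
    · by_cases hj : j = 0
      · subst hj
        rw [← hg', hz]; rfl
      · apply fv_ne
        omega
  · by_cases hle : ∃ j : ℕ, n + (j + 1) = m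
    · obtain ⟨j, hj⟩ := hle
      obtain ⟨g, hg'⟩ := fv_eq (j + 1) (by push_cast; exact hj)
      obtain ⟨h, hh⟩ := h1 j hj g (hg _ g hg')
      refine ⟨{ toFun := fun v => mk₀ two m (h (C.comp j (C.dat.pval n v).1))
                map_add' := ?_
                map_smul' := ?_ }, ?_⟩
      · intro v w
        rw [← map_add (mk₀ (S := S) two m), ← map_add, ← map_add]
        rfl
      · intro x v
        change h (C.comp j (((shift S) ^ (n + 1)) x.fst • (C.dat.pval n v).1)) =
          val₀ (S := S) two (x • mk₀ two m (h (C.comp j (C.dat.pval n v).1)))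
        rw [val₀_smul, C.comp_smul, h.map_smul, shift_zpow_apply]
        have : (j : ℤ) + (n + 1) = m := by omega
        rw [this]
        rfl
      · ext v : 1
        change h (C.comp j (C.dat.d (C.dat.gval n v))) = fv (C.dat.gval n v)
        rw [C.comp_d, ← hh]
        refine C.induction (p := fun v => g (C.comp (j + 1) v)
          = fv v) ?_ (fun v w hv hw => ?_) (fun i v => ?_) _
        · rw [fv_zero, map_zero, map_zero]
        · rw [fv_add, ← hv, ← hw, map_add, map_add]
        · by_cases hi : i = j + 1
          · subst hi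
            rw [← hg', C.comp_single_same]
          · rw [fv_ne i v (by omega), C.comp_single_ne (Ne.symm hi), map_zero]
    · refine ⟨0, ?_⟩
      rw [LinearMap.zero_comp]
      symm
      ext v : 1
      change fv v = 0
      refine C.induction (p := fun v => fv v = 0) fv_zero (fun v w hv hw => ?_)
        (fun j v => ?_) v
      · rw [fv_add, hv, hw, add_zero]
      · apply fv_ne
        rintro hj
        rcases j with _ | j
        · apply hnm; simpa using hj
        · exact hle ⟨j, by push_cast at hj; exact hj⟩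

end

end H54
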