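import Pool.Agent.H54.DGP.Pres

/-!
# Failure of deconstructibility from a failure of Vopenka's Principle
-/

universe u

open CategoryTheory CategoryTheory.Limits Cardinal FirstOrder FirstOrder.Language

namespace DGP

/-- The class of modules `G` such that there is an acyclic complex `P` of projective modules
with `G ≅ ker (P⁰ → P¹)` and all cycles `ker (Pⁿ → Pⁿ⁺¹)`, `n ≠ -1`, in `⊥₁ 𝒳`. -/
def AlmostXGP {R : Type u} [Ring R] (𝒳 : Set (ModuleCat.{u} R)) : Set (ModuleCat.{u} R) :=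
  {G | ∃ P : CochainComplex (ModuleCat.{u} R) ℤ, P.Acyclic ∧ (∀ n, Projective (P.X n)) ∧
      Nonempty (G ≅ kernel (P.d 0 1)) ∧ ∀ n : ℤ, n ≠ -1 → kernel (P.d n (n + 1)) ∈ PerpOne 𝒳}

/-- The class `𝒦` of `L`-structures violates Vopenka's Principle. -/
def ViolatesVP {L : FirstOrder.Language.{u, u}} (𝒦 : Set (Bundled.{u} L.Structure)) : Prop :=
  ¬ Small.{u} 𝒦 ∧ ∀ A ∈ 𝒦, ∀ B ∈ 𝒦, A ≠ B → IsEmpty (A ↪ₑ[L] B)

end DGP

namespace H54

open DGP

variable {L : FirstOrder.Language.{u, u}} {Λ : Type u}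

/-- The test modules: modules of small elementary substructures of members of `𝒦`. -/
def testClass (Λ : Type u) (𝒦 : Set (Bundled.{u} L.Structure)) : Set (ModuleCat.{u} (SS L Λ)) :=
  {N | ∃ B ∈ 𝒦, ∃ T : L.ElementarySubstructure B, #T < #B ∧
    N = ModuleCat.of (SS L Λ) (El.pset (L := L) (Λ := Λ) T).V}

theorem hom_eq_zero (hΛ : ℵ₀ ≤ #Λ) (hL : L.card ≤ #Λ)
    {𝒦 : Set (Bundled.{u} L.Structure)} (h𝒦 : ViolatesVP 𝒦) {A : Bundled.{u} L.Structure}
    (hA : A ∈ 𝒦) (hAΛ : #Λ ≤ #A) {N : ModuleCat.{u} (SS L Λ)} (hN : N ∈ testClass Λ 𝒦)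
    (g : (El.pset (L := L) (Λ := Λ) A).V →ₗ[SS L Λ] N) : g = 0 := by
  obtain ⟨B, hB, T, hT, rfl⟩ := hN
  by_contra hg
  obtain ⟨e⟩ := exists_elementaryEmbedding hΛ hL hAΛ g hg
  by_cases hAB : A = B
  · subst hAB
    exact absurd (mk_le_of_injective e.injective) (not_le.2 hT)
  · exact (h𝒦.2 A hA B hB hAB).false (T.subtype.comp e)

theorem not_deconstructible_of_violates (hΛ : ℵ₀ ≤ #Λ) (hL : L.card ≤ #Λ)
    {𝒦 : Set (Bundled.{u} L.Structure)} (h𝒦 : ViolatesVP 𝒦)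
    (𝒟 : Set (ModuleCat.{u} (DD (ℤ → SS L Λ) (shift (SS L Λ)))))
    (h1 : AlmostXGP (vclass SS.two (testClass Λ 𝒦)) ⊆ 𝒟)
    (h2 : 𝒟 ⊆ PerpOne (vclass SS.two (testClass Λ 𝒦))) : ¬ Deconstructible 𝒟 := by
  refine not_deconstructible SS.two (testClass Λ 𝒦) 𝒟 h2 ?_
  intro ι T
  let c : Cardinal.{u} := max #Λ (⨆ i, #(T i))
  obtain ⟨B, hB, hcB⟩ := exists_large 𝒦 h𝒦.1 h𝒦.2 c
  have hΛB : #Λ ≤ #B := (le_max_left _ _).trans hcB.le
  let M := (El.pset (L := L) (Λ := Λ) B).V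
  let C := pres (S := SS L Λ) M SS.two
  refine ⟨C, ModuleCat.of (SS L Λ) M, cov M, ?_, ?_, cov_surjective M, ?_, ?_⟩
  · apply h1
    have hperp : ∀ n : ℤ, n ≠ -1 → C.gor n ∈ PerpOne (vclass SS.two (testClass Λ 𝒦)) := by
      rintro n hn _ ⟨N, hN, rfl⟩
      refine C.ext_gor SS.two n N (fun _ g hg => ?_) (fun j hj g hg => ?_)
      · obtain ⟨g', hg'⟩ := exists_factor M g hg
        have h3 := hom_eq_zero hΛ hL h𝒦 hB hΛB hN g'
        ext x : 1
        exact (hg' x).trans (by rw [h3]; rfl)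
      · cases j with
        | zero => exact absurd (by simpa using eq_neg_of_add_eq_zero_left hj) hn
        | succ j =>
          refine ⟨0, fun x => ?_⟩
          have : x = 0 := Subsingleton.elim (α := PUnit.{u+1}) _ _
          rw [this, map_zero]
          rfl
    refine ⟨C.dat.cplx, C.dat.cplx_acyclic, ?_, ?_, ?_⟩
    · have := C.projective_dat
      exact C.dat.cplx_projective
    · have h := C.dat.cplx_kernel 0
      rw [zero_add] at h
      exact h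
    · intro n hn
      obtain ⟨e⟩ := C.dat.cplx_kernel n
      exact perpOne_of_iso e (hperp n hn)
  · exact cov_presMap (S := SS L Λ) M
  · obtain ⟨x, _⟩ := El.exists_ge (L := L) hΛ hL hΛB ∅ (by simp)
    refine ⟨(El.pset (L := L) (Λ := Λ) B).b (some x), fun h => ?_⟩
    exact one_ne_zero (Finsupp.single_eq_zero.1 h)
  · intro i f
    have hi : #(T i) ≤ c := (le_ciSup bddAbove_of_small i).trans (le_max_right _ _)
    obtain ⟨T', hT', hf⟩ := exists_small hΛ hL c (le_max_left _ _) hcB.le hi f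
    refine ⟨ModuleCat.of (SS L Λ) (El.pset (L := L) (Λ := Λ) T').V, El.mapV T'.subtype,
      ⟨B, hB, T', ?_, rfl⟩, El.mapV_injective _, hf⟩
    rw [hT']
    exact hcB

end H54
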