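import Pool.Agent.H54.DGP.Elem
import Pool.Agent.H54.DGP.Criterion

/-!
# The category algebra and its monomial modules
-/

universe u

open FirstOrder FirstOrder.Language

namespace H54

variable (L : FirstOrder.Language.{u, u}) (Λ : Type u)

/-- The relations of the category algebra. -/
inductive AlgRel : FreeAlgebra (ZMod 2) (Mor L Λ) → FreeAlgebra (ZMod 2) (Mor L Λ) → Prop
  | comp (m m' c : Mor L Λ) (h : m.comp m' = some c) :
      AlgRel (FreeAlgebra.ι _ m * FreeAlgebra.ι _ m') (FreeAlgebra.ι _ c)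
  | zero (m m' : Mor L Λ) (h : m.comp m' = none) :
      AlgRel (FreeAlgebra.ι _ m * FreeAlgebra.ι _ m') 0

/-- The (unital) category algebra, contravariant. -/
abbrev SS : Type u := RingQuot (AlgRel L Λ)

variable {L Λ}

/-- The generators. -/
noncomputable def gen (m : Mor L Λ) : SS L Λ :=
  RingQuot.mkAlgHom (ZMod 2) (AlgRel L Λ) (FreeAlgebra.ι _ m)

theorem gen_mul_gen {m m' c : Mor L Λ} (h : m.comp m' = some c) : gen m * gen m' = gen c := by
  unfold gen
  rw [← map_mul]
  exact RingQuot.mkAlgHom_rel _ (AlgRel.comp _ _ _ h)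

theorem gen_mul_gen_none {m m' : Mor L Λ} (h : m.comp m' = none) : gen m * gen m' = 0 := by
  unfold gen
  rw [← map_mul, ← map_zero (RingQuot.mkAlgHom (ZMod 2) (AlgRel L Λ))]
  exact RingQuot.mkAlgHom_rel _ (AlgRel.zero _ _ h)

theorem SS.two : (1 : SS L Λ) + 1 = 0 := by
  have : algebraMap (ZMod 2) (SS L Λ) (1 + 1) = 0 := by
    have : (1 : ZMod 2) + 1 = 0 := by decide
    rw [this, map_zero]
  rwa [map_add, map_one] at this

theorem SS.induction {p : SS L Λ → Prop} (h0 : p 0) (h1 : p 1) (hg : ∀ m, p (gen m))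
    (hadd : ∀ a b, p a → p b → p (a + b)) (hmul : ∀ a b, p a → p b → p (a * b)) (s : SS L Λ) :
    p s := by
  obtain ⟨x, rfl⟩ := RingQuot.mkAlgHom_surjective (ZMod 2) (AlgRel L Λ) s
  induction x using FreeAlgebra.induction with
  | grade0 r =>
    rw [AlgHom.commutes]
    have : r = 0 ∨ r = 1 := by revert r; decide
    rcases this with rfl | rfl
    · rwa [map_zero]
    · rwa [map_one]
  | grade1 m => exact hg m
  | mul a b ha hb => rw [map_mul]; exact hmul _ _ ha hb
  | add a b ha hb => rw [map_add]; exact hadd _ _ ha hb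

/-- Basis element or zero. -/
noncomputable def bas {Y : Type u} : Option Y → (Y →₀ ZMod 2)
  | none => 0
  | some y => Finsupp.single y 1

namespace PSet

variable (Y : PSet L Λ)

/-- The operator on `Y →₀ ZMod 2` given by a generator. -/
noncomputable def op (m : Mor L Λ) : Module.End (ZMod 2) (Y.Y →₀ ZMod 2) :=
  Finsupp.linearCombination (ZMod 2) fun y => bas (Y.a m y)

theorem op_single (m : Mor L Λ) (y : Y.Y) : Y.op m (Finsupp.single y 1) = bas (Y.a m y) := by
  unfold op
  rw [Finsupp.linearCombination_single, one_smul]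

theorem op_bas (m : Mor L Λ) (o : Option Y.Y) : Y.op m (bas o) = bas (o.bind (Y.a m)) := by
  cases o with
  | none => exact map_zero _
  | some y => exact Y.op_single m y

/-- The algebra homomorphism defining the module structure. -/
noncomputable def rep : SS L Λ →ₐ[ZMod 2] Module.End (ZMod 2) (Y.Y →₀ ZMod 2) :=
  RingQuot.liftAlgHom (ZMod 2) ⟨FreeAlgebra.lift (ZMod 2) Y.op, by
    rintro _ _ (⟨m, m', c, h⟩ | ⟨m, m', h⟩)
    · rw [map_mul, FreeAlgebra.lift_ι_apply, FreeAlgebra.lift_ι_apply, FreeAlgebra.lift_ι_apply]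
      ext y : 1
      ext : 1
      change Y.op m (Y.op m' (Finsupp.single y 1)) = Y.op c (Finsupp.single y 1)
      rw [op_single, op_single, op_bas, Y.assoc, h]
      rfl
    · rw [map_mul, FreeAlgebra.lift_ι_apply, FreeAlgebra.lift_ι_apply, map_zero]
      ext y : 1
      ext : 1
      change Y.op m (Y.op m' (Finsupp.single y 1)) = 0
      rw [op_single, op_bas, Y.assoc, h]
      rfl⟩

theorem rep_gen (m : Mor L Λ) : Y.rep (gen m) = Y.op m := by
  unfold rep gen
  rw [RingQuot.liftAlgHom_mkAlgHom_apply, FreeAlgebra.lift_ι_apply]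

/-- The monomial module. -/
def V : Type u := Y.Y →₀ ZMod 2

noncomputable instance : AddCommGroup Y.V := inferInstanceAs (AddCommGroup (Y.Y →₀ ZMod 2))

noncomputable instance : Module (SS L Λ) Y.V :=
  Module.compHom (Y.Y →₀ ZMod 2) (Y.rep : SS L Λ →+* Module.End (ZMod 2) (Y.Y →₀ ZMod 2))

/-- The element of the monomial module. -/
noncomputable def vmk : (Y.Y →₀ ZMod 2) →+ Y.V := AddMonoidHom.id _

/-- The underlying finitely supported function. -/
noncomputable def val : Y.V →+ (Y.Y →₀ ZMod 2) := AddMonoidHom.id _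

@[simp] theorem val_vmk (v) : Y.val (Y.vmk v) = v := rfl
@[simp] theorem vmk_val (v) : Y.vmk (Y.val v) = v := rfl

theorem val_injective : Function.Injective Y.val := fun _ _ h => h

theorem val_gen_smul (m : Mor L Λ) (v : Y.V) : Y.val (gen m • v) = Y.op m (Y.val v) := by
  change Y.rep (gen m) (Y.val v) = _
  rw [rep_gen]

/-- Basis elements. -/
noncomputable def b (o : Option Y.Y) : Y.V := Y.vmk (bas o)

theorem gen_smul_b (m : Mor L Λ) (o : Option Y.Y) : gen m • Y.b o = Y.b (o.bind (Y.a m)) := by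
  apply Y.val_injective
  rw [val_gen_smul]
  exact Y.op_bas m o

end PSet

theorem zmod2_eq_one {a : ZMod 2} (h : a ≠ 0) : a = 1 := by
  revert a; decide

theorem finsupp_eq_sum {Y : Type u} (v : Y →₀ ZMod 2) :
    v = ∑ y ∈ v.support, Finsupp.single y 1 := by
  conv_lhs => rw [← Finsupp.sum_single v]
  unfold Finsupp.sum
  refine Finset.sum_congr rfl fun y hy => ?_
  rw [zmod2_eq_one (Finsupp.mem_support_iff.1 hy)]

/-- An `𝔽₂`-linear-like induction for additive maps on monomial modules. -/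
theorem PSet.V_induction (Y : PSet L Λ) {p : Y.V → Prop} (h0 : p 0)
    (hadd : ∀ v w, p v → p w → p (v + w)) (hb : ∀ y, p (Y.b (some y))) (v : Y.V) : p v := by
  have h1 : v = Y.vmk (Y.val v) := rfl
  rw [h1, finsupp_eq_sum (Y.val v), map_sum]
  refine Finset.sum_induction _ p hadd h0 fun y _ => hb y

section support

variable {Y Z : Type u} [DecidableEq Y] [DecidableEq Z]

/-- The image of a finite set under a partial function. -/
noncomputable def img (a : Y → Option Z) (s : Finset Y) : Finset Z :=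
  Finset.eraseNone (s.image a)

omit [DecidableEq Y] in
theorem mem_img {a : Y → Option Z} {s : Finset Y} {z : Z} :
    z ∈ img a s ↔ ∃ y ∈ s, a y = some z := by
  unfold img
  rw [Finset.mem_eraseNone, Finset.mem_image]

omit [DecidableEq Y] in
theorem card_img_le (a : Y → Option Z) (s : Finset Y) : (img a s).card ≤ s.card := by
  unfold img
  refine le_trans ?_ (Finset.card_image_le (s := s) (f := a))
  rw [Finset.card_eraseNone_eq_card_erase]
  exact Finset.card_erase_le

omit [DecidableEq Y] in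
theorem img_bij {a : Y → Option Z} {s : Finset Y} (h : s.card ≤ (img a s).card) :
    (∀ y ∈ s, ∃ z ∈ img a s, a y = some z) ∧
      (∀ y ∈ s, ∀ y' ∈ s, a y = a y' → y = y') := by
  have h1 : (s.image a).card ≤ s.card := Finset.card_image_le
  have h2 : (img a s).card = ((s.image a).erase none).card :=
    Finset.card_eraseNone_eq_card_erase _
  have h3 : ((s.image a).erase none).card ≤ (s.image a).card := Finset.card_erase_le
  have h4 : (s.image a).card = s.card := by omega
  have h5 : none ∉ s.image a := by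
    intro hn
    have := Finset.card_erase_of_mem hn
    have h6 : 0 < (s.image a).card := Finset.card_pos.2 ⟨_, hn⟩
    omega
  refine ⟨fun y hy => ?_, fun y hy y' hy' h => ?_⟩
  · cases hz : a y with
    | none => exact absurd (hz ▸ Finset.mem_image_of_mem a hy) h5
    | some z => exact ⟨z, mem_img.2 ⟨y, hy, hz⟩, rfl⟩
  · exact (Finset.card_image_iff.1 h4) hy hy' h

end support

namespace PSet

variable (Y : PSet L Λ)

open Classical in
theorem support_op (m : Mor L Λ) (v : Y.Y →₀ ZMod 2) :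
    (Y.op m v).support ⊆ img (Y.a m) v.support := by
  intro z hz
  rw [Finsupp.mem_support_iff] at hz
  rw [mem_img]
  by_contra hc
  push Not at hc
  apply hz
  unfold op
  rw [Finsupp.linearCombination_apply, Finsupp.sum, Finsupp.finsetSum_apply]
  refine Finset.sum_eq_zero fun y hy => ?_
  rw [Finsupp.smul_apply]
  cases hy' : Y.a m y with
  | none => simp [bas]
  | some w =>
    have : w ≠ z := fun h => hc y hy (by rw [hy', h])
    simp [bas, this]

/-- Applying a generator does not increase the support; if it does not decrease it, then it acts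
bijectively on it. -/
theorem card_support_op_le (m : Mor L Λ) (v : Y.Y →₀ ZMod 2) :
    (Y.op m v).support.card ≤ v.support.card := by
  classical
  exact (Finset.card_le_card (Y.support_op m v)).trans (card_img_le _ _)

theorem support_op_of_card (m : Mor L Λ) (v : Y.Y →₀ ZMod 2)
    (h : v.support.card ≤ (Y.op m v).support.card) :
    (∀ y ∈ v.support, ∃ z ∈ (Y.op m v).support, Y.a m y = some z) ∧
    (∀ z ∈ (Y.op m v).support, ∃ y ∈ v.support, Y.a m y = some z) ∧
      (∀ y ∈ v.support, ∀ y' ∈ v.support, Y.a m y = Y.a m y' → y = y') := by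
  classical
  have h1 := Y.support_op m v
  have h2 : v.support.card ≤ (img (Y.a m) v.support).card := h.trans (Finset.card_le_card h1)
  obtain ⟨h3, h4⟩ := img_bij h2
  have h5 : (Y.op m v).support = img (Y.a m) v.support :=
    Finset.eq_of_subset_of_card_le h1 ((card_img_le _ _).trans h)
  refine ⟨fun y hy => ?_, fun z hz => ?_, h4⟩
  · rw [h5]; exact h3 y hy
  · exact mem_img.1 (h1 hz)

end PSet

section stab

variable {A : Type u} [L.Structure A] (Y : PSet L Λ) 
  (f : (El.pset (L := L) (Λ := Λ) A).V →ₗ[SS L Λ] Y.V)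

/-- The value of `f` on a basis element. -/
noncomputable def fv (x : El L Λ A) : Y.Y →₀ ZMod 2 := Y.val (f ((El.pset A).b (some x)))

theorem fv_tr {x y : El L Λ A} (h : x.le y) : fv Y f x = Y.op (El.tr h) (fv Y f y) := by
  unfold fv
  rw [← Y.val_gen_smul, ← f.map_smul, PSet.gen_smul_b]
  congr 3
  exact (El.act_tr h).symm

theorem card_fv_mono {x y : El L Λ A} (h : x.le y) :
    (fv Y f x).support.card ≤ (fv Y f y).support.card := by
  rw [fv_tr Y f h]
  exact Y.card_support_op_le _ _

theorem exists_fv_ne_zero (hf : f ≠ 0) : ∃ x, fv Y f x ≠ 0 := by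
  by_contra hc
  push Not at hc
  apply hf
  ext v : 1
  refine (El.pset A).V_induction (p := fun v => f v = 0) (map_zero _)
    (fun v w hv hw => by rw [map_add, hv, hw, add_zero]) (fun x => ?_) v
  exact Y.val_injective (hc x)

variable (hΛ : Cardinal.aleph0 ≤ Cardinal.mk Λ) (hL : L.card ≤ Cardinal.mk Λ)
  (hA : Cardinal.mk Λ ≤ Cardinal.mk A)

include hΛ hL hA

/-- The size of the support attains a maximum. -/
theorem exists_max : ∃ x₀ : El L Λ A, ∀ x,
    (fv Y f x).support.card ≤ (fv Y f x₀).support.card := by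
  have hbdd : BddAbove (Set.range fun x : El L Λ A => (fv Y f x).support.card) := by
    by_contra hc
    rw [not_bddAbove_iff] at hc
    have : ∀ n : ULift.{u} ℕ, ∃ x : El L Λ A, n.down < (fv Y f x).support.card := by
      intro n
      obtain ⟨_, ⟨x, rfl⟩, hx⟩ := hc n.down
      exact ⟨x, hx⟩
    choose x hx using this
    obtain ⟨y, hy⟩ := El.exists_ge_family hΛ hL hA (by simpa using hΛ) x
    have h1 := (hx ⟨(fv Y f y).support.card⟩).trans_le (card_fv_mono Y f (hy _))
    exact lt_irrefl _ h1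
  obtain ⟨x, _⟩ := El.exists_ge (L := L) hΛ hL hA ∅ (by simp)
  obtain ⟨x₀, hx₀⟩ := Nat.sSup_mem (Set.range_nonempty_iff_nonempty.2 ⟨x⟩) hbdd
  refine ⟨x₀, fun x => ?_⟩
  have h2 := le_csSup hbdd ⟨x, rfl⟩
  simp only at hx₀
  rw [← hx₀] at h2
  exact h2

/-- Stabilisation: above `x₀` the supports are in bijection. -/
theorem exists_stable : ∃ x₀ : El L Λ A, (∀ x, (fv Y f x).support.card ≤
      (fv Y f x₀).support.card) ∧ ∀ y y' : El L Λ A, x₀.le y → ∀ h' : y.le y',
    (∀ z' ∈ (fv Y f y').support, ∃ z ∈ (fv Y f y).support, Y.a (El.tr h') z' = some z) ∧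
    (∀ z ∈ (fv Y f y).support, ∃ z' ∈ (fv Y f y').support, Y.a (El.tr h') z' = some z) ∧
    (∀ z ∈ (fv Y f y').support, ∀ z' ∈ (fv Y f y').support,
      Y.a (El.tr h') z = Y.a (El.tr h') z' → z = z') := by
  obtain ⟨x₀, hx₀⟩ := exists_max Y f hΛ hL hA
  refine ⟨x₀, hx₀, fun y y' h h' => ?_⟩
  have h1 : (fv Y f y').support.card ≤ (fv Y f y).support.card :=
    (hx₀ y').trans (card_fv_mono Y f h)
  rw [fv_tr Y f h'] at h1 ⊢
  exact Y.support_op_of_card _ _ h1

/-- A nonzero homomorphism gives a coherent family. -/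
theorem exists_coherent (hf : f ≠ 0) : ∃ (x₀ : El L Λ A) (z : ∀ y : El L Λ A, x₀.le y → Y.Y),
    ∀ (y y' : El L Λ A) (h : x₀.le y) (h' : y.le y'),
      Y.a (El.tr h') (z y' (El.le_trans h h')) = some (z y h) := by
  obtain ⟨x₀, hmax, hst⟩ := exists_stable Y f hΛ hL hA
  obtain ⟨x, hx⟩ := exists_fv_ne_zero Y f hf
  have hpos : 0 < (fv Y f x₀).support.card := by
    refine lt_of_lt_of_le (Finset.card_pos.2 ?_) (hmax x)
    exact Finsupp.support_nonempty_iff.2 hx
  obtain ⟨z₀, hz₀⟩ := Finset.card_pos.1 hpos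
  have hex : ∀ y, ∀ h : x₀.le y, ∃ z ∈ (fv Y f y).support, Y.a (El.tr h) z = some z₀ :=
    fun y h => (hst x₀ y (El.le_refl _) h).2.1 z₀ hz₀
  choose z hz hz' using hex
  refine ⟨x₀, z, fun y y' h h' => ?_⟩
  obtain ⟨w, hw, hw'⟩ := (hst y y' h h').1 _ (hz y' (El.le_trans h h'))
  rw [hw']
  congr 1
  apply (hst x₀ y (El.le_refl _) h).2.2 w hw _ (hz y h)
  rw [hz']
  have h1 := Y.assoc (El.tr h) (El.tr h') (z y' (El.le_trans h h'))
  rw [hw', El.tr_comp, Option.bind_some, Option.bind_some, hz'] at h1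
  exact h1

end stab

/-- The key lemma: a nonzero homomorphism between the modules of two structures gives an
elementary embedding. -/
theorem exists_elementaryEmbedding {A B : Type u} [L.Structure A] [L.Structure B]
    (hΛ : Cardinal.aleph0 ≤ Cardinal.mk Λ) (hL : L.card ≤ Cardinal.mk Λ)
    (hA : Cardinal.mk Λ ≤ Cardinal.mk A)
    (f : (El.pset (L := L) (Λ := Λ) A).V →ₗ[SS L Λ] (El.pset (L := L) (Λ := Λ) B).V)
    (hf : f ≠ 0) : Nonempty (A ↪ₑ[L] B) := by
  obtain ⟨x₀, z, hz⟩ := exists_coherent (El.pset (L := L) (Λ := Λ) B) f hΛ hL hA hf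
  have hz1 : ∀ (y y' : El L Λ A) (h : x₀.le y) (h' : y.le y') (l : Λ),
      El.fn (z y h) l = El.fn (z y' (El.le_trans h h')) ((El.tr h').fn l) := by
    intro y y' h h' l
    obtain ⟨_, _, h3⟩ := El.act_eq_some.1 (hz y y' h h')
    rw [h3]; rfl
  have hz2 : ∀ (y : El L Λ A) (h : x₀.le y), El.str (z y h) = y.str := by
    intro y h
    obtain ⟨_, h2, _⟩ := El.act_eq_some.1 (hz y y h (El.le_refl y))
    exact h2
  have hup : ∀ s : Set A, Cardinal.mk s ≤ Cardinal.mk Λ →
      ∃ y : El L Λ A, x₀.le y ∧ s ⊆ Set.range y.fn := by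
    intro s hs
    obtain ⟨y, hy⟩ := El.exists_ge (L := L) hΛ hL hA (Set.range x₀.fn ∪ s) (by
      refine (Cardinal.mk_union_le _ _).trans ?_
      exact Cardinal.add_le_of_le hΛ x₀.mk_range_le hs)
    exact ⟨y, Set.subset_union_left.trans hy, Set.subset_union_right.trans hy⟩
  have hone : ∀ a : A, ∃ (y : El L Λ A) (_ : x₀.le y) (l : Λ), y.fn l = a := by
    intro a
    obtain ⟨y, h, hs⟩ := hup {a} (by
      rw [Cardinal.mk_singleton]
      exact Cardinal.one_le_aleph0.trans hΛ)
    obtain ⟨l, hl⟩ := hs rfl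
    exact ⟨y, h, l, hl⟩
  choose Ya hYa la hla using hone
  let H : A → B := fun a => El.fn (z (Ya a) (hYa a)) (la a)
  have hH : ∀ (y : El L Λ A) (h : x₀.le y) (l : Λ), H (y.fn l) = El.fn (z y h) l := by
    intro y h l
    obtain ⟨y', hy1, hy2⟩ := hup (Set.range y.fn ∪ Set.range (Ya (y.fn l)).fn) (by
      refine (Cardinal.mk_union_le _ _).trans ?_
      exact Cardinal.add_le_of_le hΛ y.mk_range_le (El.mk_range_le _))
    have h1 : y.le y' := Set.subset_union_left.trans hy2
    have h2 : (Ya (y.fn l)).le y' := Set.subset_union_right.trans hy2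
    change El.fn (z (Ya (y.fn l)) (hYa _)) (la (y.fn l)) = _
    rw [hz1 _ _ (hYa _) h2, hz1 _ _ h h1]
    congr 1
    apply y'.injective
    rw [El.tr_fn, El.tr_fn, hla]
  refine ⟨⟨H, ?_⟩⟩
  intro n φ v
  obtain ⟨y, h, hs⟩ := hup (Set.range v)
    ((Cardinal.le_aleph0_iff_set_countable.2 (Set.countable_range v)).trans hΛ)
  have hw : ∀ i, ∃ l, y.fn l = v i := fun i => hs ⟨i, rfl⟩
  choose w hw using hw
  have e1 : v = y.fn ∘ w := by ext i; exact (hw i).symm
  have e2 : H ∘ v = El.fn (z y h) ∘ w := by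
    ext i
    rw [Function.comp_apply, e1]
    exact hH y h (w i)
  rw [e2, e1]
  refine (El.realize (L := L) (Λ := Λ) (A := B) (z y h) φ w).trans ?_
  rw [hz2, El.realize]

end H54
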