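import Pool.Agent.H54.DGP.Small

/-!
# The two-term complex of a presentation
-/

universe u

open CategoryTheory CategoryTheory.Limits DGP Cardinal FirstOrder FirstOrder.Language

namespace H54

section pres

variable {S : Type u} [Ring S] (M : Type u) [AddCommGroup M] [Module S M]

/-- The canonical free cover. -/
noncomputable def cov : (M →₀ S) →ₗ[S] M := Finsupp.linearCombination S id

theorem cov_surjective : Function.Surjective (cov (S := S) M) := fun m =>
  ⟨Finsupp.single m 1, by simp [cov]⟩

/-- The terms of the two-term complex. -/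
noncomputable def presF : ℕ → ModuleCat.{u} S
  | 0 => ModuleCat.of S (M →₀ S)
  | 1 => ModuleCat.of S (↥(LinearMap.ker (cov (S := S) M)) →₀ S)
  | _ + 2 => ModuleCat.of S PUnit.{u+1}

/-- The map of the two-term complex. -/
noncomputable def presMap : (↥(LinearMap.ker (cov (S := S) M)) →₀ S) →ₗ[S] (M →₀ S) :=
  (LinearMap.ker (cov (S := S) M)).subtype ∘ₗ
    cov (S := S) ↥(LinearMap.ker (cov (S := S) M))

theorem cov_presMap (x : ↥(LinearMap.ker (cov (S := S) M)) →₀ S) :
    cov M (presMap M x) = 0 :=
  (cov (S := S) ↥(LinearMap.ker (cov (S := S) M)) x).2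

/-- The differentials of the two-term complex. -/
noncomputable def presδ : ∀ j : ℕ, presF (S := S) M (j + 1) →ₗ[S] presF (S := S) M j
  | 0 => presMap M
  | _ + 1 => 0

/-- The two-term complex of a presentation. -/
noncomputable def pres (hS : (1 : S) + 1 = 0) : Cpx S where
  F j := presF (S := S) M j
  δ := presδ M
  δ_δ j x := by
    cases j with
    | zero => exact map_zero _
    | succ j => rfl
  two j v := two_of hS _ v

instance presF_projective (j : ℕ) : Module.Projective S (presF (S := S) M j) := by
  match j with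
  | 0 => exact inferInstanceAs (Module.Projective S (M →₀ S))
  | 1 => exact inferInstanceAs (Module.Projective S (↥(LinearMap.ker (cov (S := S) M)) →₀ S))
  | _ + 2 => exact inferInstanceAs (Module.Projective S PUnit.{u+1})

instance (hS : (1 : S) + 1 = 0) (j : ℕ) : Module.Projective S ((pres M hS).F j) :=
  presF_projective M j

/-- A map from the canonical free cover killing the relations factors through the module. -/
theorem exists_factor {N : Type u} [AddCommGroup N] [Module S N] (g : (M →₀ S) →ₗ[S] N)
    (hg : ∀ x, g (presMap M x) = 0) : ∃ g' : M →ₗ[S] N, ∀ x, g x = g' (cov M x) := by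
  have hker : LinearMap.ker (cov (S := S) M) ≤ LinearMap.ker g := by
    intro x hx
    obtain ⟨y, hy⟩ := cov_surjective (S := S) ↥(LinearMap.ker (cov (S := S) M)) ⟨x, hx⟩
    have h1 := hg y
    have h2 : presMap M y = x := by
      change ((cov (S := S) ↥(LinearMap.ker (cov (S := S) M)) y :
        ↥(LinearMap.ker (cov (S := S) M))) : M →₀ S) = x
      rw [hy]
    rw [h2] at h1
    exact h1
  let e := (cov (S := S) M).quotKerEquivOfSurjective (cov_surjective M)
  refine ⟨(Submodule.liftQ _ g hker) ∘ₗ e.symm.toLinearMap, fun x => ?_⟩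
  have h3 : e.symm (cov M x) = Submodule.Quotient.mk x := by
    rw [LinearEquiv.symm_apply_eq]
    rfl
  rw [LinearMap.comp_apply, LinearEquiv.coe_coe, h3]
  rfl

end pres

/-- Invariance of the orthogonal class under isomorphism. -/
theorem perpOne_of_iso {R : Type u} [Ring R] {𝒳 : Set (ModuleCat.{u} R)}
    {G G' : ModuleCat.{u} R} (e : G ≅ G') (h : G ∈ PerpOne 𝒳) : G' ∈ PerpOne 𝒳 := by
  intro X hX
  have := h X hX
  refine subsingleton_of_forall_eq 0 fun x => ?_
  have h1 : (Abelian.Ext.mk₀ e.hom).comp x (zero_add 1) = 0 := Subsingleton.elim _ _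
  have h2 : (Abelian.Ext.mk₀ e.inv).comp ((Abelian.Ext.mk₀ e.hom).comp x (zero_add 1))
      (zero_add 1) = x := by
    rw [Abelian.Ext.mk₀_comp_mk₀_assoc, e.inv_hom_id, Abelian.Ext.mk₀_id_comp]
  rw [← h2, h1, Abelian.Ext.comp_zero]

end H54
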