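import Pool.Agent.H54.DGP.Monomial

/-!
# Small submodules, and classes without elementary embeddings
-/

universe u

open FirstOrder FirstOrder.Language Cardinal

namespace H54

variable {L : FirstOrder.Language.{u, u}} {Λ : Type u}

/-- An additive map commuting with the generators is linear. -/
def linOfGen {M M' : Type*} [AddCommGroup M] [Module (SS L Λ) M] [AddCommGroup M']
    [Module (SS L Λ) M'] (F : M →+ M')
    (h : ∀ (m : Mor L Λ) v, F (gen m • v) = gen m • F v) :
    M →ₗ[SS L Λ] M' where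
  toFun := F
  map_add' := F.map_add
  map_smul' s v := by
    have key : ∀ s : SS L Λ, ∀ v, F (s • v) = s • F v := by
      intro s
      refine SS.induction (p := fun s => ∀ v, F (s • v) = s • F v) ?_ ?_ ?_ ?_ ?_ s
      · intro v; rw [zero_smul, zero_smul, map_zero]
      · intro v; rw [one_smul, one_smul]
      · exact h
      · intro a b ha hb v; rw [add_smul, add_smul, map_add, ha, hb]
      · intro a b ha hb v; rw [mul_smul, mul_smul, ha, hb]
    exact key s v

/-- Functoriality of monomial modules. -/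
noncomputable def PSet.mapV {Y Z : PSet L Λ} (φ : Y.Y → Z.Y)
    (h : ∀ m y, Z.a m (φ y) = (Y.a m y).map φ) : Y.V →ₗ[SS L Λ] Z.V :=
  linOfGen (Z.vmk.comp ((Finsupp.mapDomain.addMonoidHom φ).comp Y.val)) (by
    intro m v
    have hb : ∀ o : Option Y.Y, (Z.vmk.comp ((Finsupp.mapDomain.addMonoidHom φ).comp Y.val))
        (Y.b o) = Z.b (o.map φ) := by
      intro o
      cases o with
      | none => exact map_zero _
      | some y =>
        change Z.vmk (Finsupp.mapDomain φ (Finsupp.single y 1)) = _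
        rw [Finsupp.mapDomain_single]
        rfl
    refine Y.V_induction (p := fun v => (Z.vmk.comp ((Finsupp.mapDomain.addMonoidHom φ).comp
      Y.val)) (gen m • v) = gen m • (Z.vmk.comp ((Finsupp.mapDomain.addMonoidHom φ).comp
      Y.val)) v) ?_ ?_ ?_ v
    · rw [smul_zero, map_zero, smul_zero]
    · intro v w hv hw
      rw [smul_add, map_add, map_add, smul_add, hv, hw]
    · intro y
      rw [PSet.gen_smul_b, hb, hb, PSet.gen_smul_b]
      congr 1
      exact (h m y).symm)

theorem PSet.mapV_b {Y Z : PSet L Λ} (φ : Y.Y → Z.Y)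
    (h : ∀ m y, Z.a m (φ y) = (Y.a m y).map φ) (y : Y.Y) :
    PSet.mapV φ h (Y.b (some y)) = Z.b (some (φ y)) := by
  change Z.vmk (Finsupp.mapDomain φ (Finsupp.single y 1)) = _
  rw [Finsupp.mapDomain_single]
  rfl

theorem PSet.mapV_injective {Y Z : PSet L Λ} (φ : Y.Y → Z.Y)
    (h : ∀ m y, Z.a m (φ y) = (Y.a m y).map φ) (hφ : Function.Injective φ) :
    Function.Injective (PSet.mapV φ h) :=
  Finsupp.mapDomain_injective hφ

section El

variable {A B : Type u} [L.Structure A] [L.Structure B]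

/-- Composition with an elementary embedding. -/
def El.map (g : A ↪ₑ[L] B) (x : El L Λ A) : El L Λ B :=
  ⟨x.str, @ElementaryEmbedding.mk L Λ B x.str _ (g ∘ x.fn) (by
    intro n φ v
    rw [Function.comp_assoc, ← x.realize]
    exact g.map_formula' φ _)⟩

theorem El.map_fn (g : A ↪ₑ[L] B) (x : El L Λ A) : (El.map g x).fn = g ∘ x.fn := rfl

theorem El.map_injective (g : A ↪ₑ[L] B) : Function.Injective (El.map (Λ := Λ) g) := by
  intro x y h
  have h0 : (El.map g x).str = (El.map g y).str := by rw [h]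
  refine El.ext' h0 ?_
  have h1 : g ∘ x.fn = g ∘ y.fn := by rw [← El.map_fn, ← El.map_fn, h]
  ext l
  exact g.injective (congrFun h1 l)

theorem El.act_map (g : A ↪ₑ[L] B) (m : Mor L Λ) (x : El L Λ A) :
    El.act m (El.map g x) = (El.act m x).map (El.map g) := by
  ext z
  rw [Option.map_eq_some_iff]
  constructor
  · intro h
    obtain ⟨h1, h2, h3⟩ := El.act_eq_some.1 h
    obtain ⟨y, hy⟩ := El.act_isSome (x := x) h1
    refine ⟨y, hy, ?_⟩
    obtain ⟨h4, h5, h6⟩ := El.act_eq_some.1 hy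
    refine El.ext' (h5.trans h2.symm) ?_
    rw [El.map_fn, h6, h3, El.map_fn]; rfl
  · rintro ⟨y, hy, rfl⟩
    obtain ⟨h4, h5, h6⟩ := El.act_eq_some.1 hy
    refine El.act_eq_some.2 ⟨h4, h5, ?_⟩
    rw [El.map_fn, h6, El.map_fn]; rfl

/-- The induced map of modules. -/
noncomputable def El.mapV (g : A ↪ₑ[L] B) :
    (El.pset (L := L) (Λ := Λ) A).V →ₗ[SS L Λ] (El.pset (L := L) (Λ := Λ) B).V :=
  PSet.mapV (Y := El.pset A) (Z := El.pset B) (El.map g) (El.act_map g)

theorem El.mapV_injective (g : A ↪ₑ[L] B) : Function.Injective (El.mapV (Λ := Λ) g) :=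
  PSet.mapV_injective _ _ (El.map_injective g)

/-- An element whose range is contained in an elementary substructure factors. -/
theorem El.exists_of_range_subset (T : L.ElementarySubstructure B) (x : El L Λ B)
    (h : Set.range x.fn ⊆ T) : ∃ y : El L Λ T, El.map T.subtype y = x := by
  refine ⟨⟨x.str, @ElementaryEmbedding.mk L Λ T x.str _ (fun l => ⟨x.fn l, h ⟨l, rfl⟩⟩) ?_⟩, ?_⟩
  · intro n φ v
    rw [← x.realize]
    exact (T.subtype.map_formula' φ (fun i => ⟨x.fn (v i), h ⟨v i, rfl⟩⟩)).symm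
  · exact El.ext' rfl rfl

/-- A small subset of the module of `B` is contained in the module of a small elementary
substructure. -/
theorem exists_small (hΛ : ℵ₀ ≤ #Λ) (hL : L.card ≤ #Λ) (μ : Cardinal.{u}) (hμ : #Λ ≤ μ)
    (hB : μ ≤ #B) {I : Type u} (hI : #I ≤ μ) (f : I → (El.pset (L := L) (Λ := Λ) B).V) :
    ∃ T : L.ElementarySubstructure B, #T = μ ∧
      Set.range f ⊆ Set.range (El.mapV (Λ := Λ) T.subtype) := by
  let Y := El.pset (L := L) (Λ := Λ) B
  let J := Σ i : I, (↥(Y.val (f i)).support) × Λ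
  let r : J → B := fun j => El.fn (L := L) (Λ := Λ) (A := B) (j.2.1.1) j.2.2
  have hJ : #J ≤ μ := by
    have h1 : ∀ i : I, #((↥(Y.val (f i)).support) × Λ) ≤ μ := by
      intro i
      rw [mk_prod, lift_id, lift_id]
      refine (mul_le_mul' (mk_le_aleph0 (α := ↥(Y.val (f i)).support)) le_rfl).trans ?_
      refine (mul_le_mul' hΛ le_rfl).trans ?_
      rw [mul_eq_self hΛ]
      exact hμ
    rw [mk_sigma]
    refine (sum_le_sum _ (fun _ => μ) h1).trans ?_
    rw [sum_const, lift_id, lift_id]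
    exact (mul_le_mul' hI le_rfl).trans (mul_eq_self (hΛ.trans hμ)).le
  obtain ⟨T, hT, hcard⟩ := exists_elementarySubstructure_card_eq L (Set.range r) μ
    (hΛ.trans hμ) (by simpa using mk_range_le.trans hJ) (by simpa using hL.trans hμ)
    (by simpa using hB)
  refine ⟨T, by simpa using hcard, ?_⟩
  rintro _ ⟨i, rfl⟩
  have h2 : f i = Y.vmk (Y.val (f i)) := rfl
  rw [h2, finsupp_eq_sum (Y.val (f i)), map_sum]
  rw [← LinearMap.coe_range, SetLike.mem_coe]
  refine Submodule.sum_mem _ fun x hx => ?_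
  obtain ⟨y, hy⟩ := El.exists_of_range_subset T x (by
    rintro _ ⟨l, rfl⟩
    exact hT ⟨⟨i, ⟨⟨x, hx⟩, l⟩⟩, rfl⟩)
  refine ⟨(El.pset (L := L) (Λ := Λ) T).b (some y), ?_⟩
  refine (PSet.mapV_b (Y := El.pset T) (Z := El.pset B) (El.map T.subtype)
    (El.act_map T.subtype) y).trans ?_
  rw [hy]
  rfl

end El

/-- A non-small class without elementary embeddings between distinct members contains
arbitrarily large structures. -/
theorem exists_large (𝒦 : Set (CategoryTheory.Bundled.{u} L.Structure)) (h𝒦 : ¬ Small.{u} 𝒦)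
    (hne : ∀ A ∈ 𝒦, ∀ B ∈ 𝒦, A ≠ B → IsEmpty (A ↪ₑ[L] B)) (c : Cardinal.{u}) :
    ∃ B ∈ 𝒦, c < #B := by
  by_contra hc
  push Not at hc
  apply h𝒦
  let κ : Type u := c.out
  have hs : ∀ B : 𝒦, ∃ s : Σ C : Set κ, L.Structure C,
      Nonempty (@Language.Equiv L B.1 s.1 _ s.2) := by
    rintro ⟨B, hB⟩
    have h1 : #B ≤ #κ := by rw [mk_out]; exact hc B hB
    obtain ⟨e⟩ := (le_def _ _).1 h1
    let e' : B ≃ Set.range e := Equiv.ofInjective e e.injective
    exact ⟨⟨Set.range e, e'.inducedStructure⟩, ⟨e'.inducedStructureEquiv⟩⟩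
  choose s hs using hs
  refine small_of_injective (f := s) ?_
  intro B B' h
  by_contra hBB
  have h1 : B.1 ≠ B'.1 := fun h => hBB (Subtype.ext h)
  obtain ⟨e⟩ := hs B
  obtain ⟨e'⟩ := hs B'
  rw [← h] at e'
  let _ := (s B).2
  exact (hne B.1 B.2 B'.1 B'.2 h1).false ((e'.symm.comp e).toElementaryEmbedding)

end H54
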