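import Mathlib

/-!
# Twisted dual numbers over a ring with an automorphism

`DD B τ` is the ring `B ⊕ B d` with `d b = τ b d` and `d ^ 2 = 0`.
-/

universe u

namespace H54

/-- Elements `fst + snd * d`. -/
@[ext] structure DD (B : Type u) [Ring B] (τ : RingAut B) : Type u where
  fst : B
  snd : B

namespace DD

variable {B : Type u} [Ring B] {τ : RingAut B}

instance : Zero (DD B τ) := ⟨⟨0, 0⟩⟩
instance : One (DD B τ) := ⟨⟨1, 0⟩⟩
instance : Add (DD B τ) := ⟨fun x y => ⟨x.fst + y.fst, x.snd + y.snd⟩⟩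
instance : Neg (DD B τ) := ⟨fun x => ⟨-x.fst, -x.snd⟩⟩
instance : Mul (DD B τ) := ⟨fun x y => ⟨x.fst * y.fst, x.fst * y.snd + x.snd * τ y.fst⟩⟩

@[simp] theorem zero_fst : (0 : DD B τ).fst = 0 := rfl
@[simp] theorem zero_snd : (0 : DD B τ).snd = 0 := rfl
@[simp] theorem one_fst : (1 : DD B τ).fst = 1 := rfl
@[simp] theorem one_snd : (1 : DD B τ).snd = 0 := rfl
@[simp] theorem add_fst (x y : DD B τ) : (x + y).fst = x.fst + y.fst := rfl
@[simp] theorem add_snd (x y : DD B τ) : (x + y).snd = x.snd + y.snd := rfl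
@[simp] theorem neg_fst (x : DD B τ) : (-x).fst = -x.fst := rfl
@[simp] theorem neg_snd (x : DD B τ) : (-x).snd = -x.snd := rfl
@[simp] theorem mul_fst (x y : DD B τ) : (x * y).fst = x.fst * y.fst := rfl
@[simp] theorem mul_snd (x y : DD B τ) : (x * y).snd = x.fst * y.snd + x.snd * τ y.fst := rfl

instance : Ring (DD B τ) where
  add_assoc x y z := by ext <;> simp [add_assoc]
  zero_add x := by ext <;> simp
  add_zero x := by ext <;> simp
  add_comm x y := by ext <;> simp [add_comm]
  neg_add_cancel x := by ext <;> simp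
  mul_assoc x y z := by ext <;> simp [mul_assoc, mul_add, add_mul, add_assoc]
  one_mul x := by ext <;> simp
  mul_one x := by ext <;> simp
  zero_mul x := by ext <;> simp
  mul_zero x := by ext <;> simp
  left_distrib x y z := by ext <;> simp [mul_add]; abel
  right_distrib x y z := by ext <;> simp [add_mul]; abel
  nsmul := nsmulRec
  zsmul := zsmulRec

/-- The inclusion of the base ring. -/
def inl (b : B) : DD B τ := ⟨b, 0⟩

/-- The element `b d`. -/
def inr (b : B) : DD B τ := ⟨0, b⟩

@[simp] theorem inl_fst (b : B) : (inl b : DD B τ).fst = b := rfl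
@[simp] theorem inl_snd (b : B) : (inl b : DD B τ).snd = 0 := rfl
@[simp] theorem inr_fst (b : B) : (inr b : DD B τ).fst = 0 := rfl
@[simp] theorem inr_snd (b : B) : (inr b : DD B τ).snd = b := rfl

/-- The inclusion of the base ring as a ring homomorphism. -/
def inlHom : B →+* DD B τ where
  toFun := inl
  map_zero' := rfl
  map_one' := rfl
  map_add' x y := by ext <;> simp
  map_mul' x y := by ext <;> simp

end DD

theorem zpow_succ_apply {B : Type u} [Ring B] (τ : RingAut B) (n : ℤ) (b : B) :
    (τ ^ (n + 1)) b = τ ((τ ^ n) b) := by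
  rw [add_comm, zpow_one_add]; rfl

theorem zpow_succ_apply' {B : Type u} [Ring B] (τ : RingAut B) (n : ℤ) (b : B) :
    (τ ^ (n + 1)) b = (τ ^ n) (τ b) := by
  rw [zpow_add_one]; rfl

/-- Data of a differential module over `(B, τ)` of characteristic two. -/
structure Dat (B : Type u) [Ring B] (τ : RingAut B) where
  V : Type u
  [grp : AddCommGroup V]
  [mod : Module B V]
  d : V →+ V
  d_smul : ∀ (b : B) (v : V), d (b • v) = τ b • d v
  d_d : ∀ v, d (d v) = 0
  two : ∀ v : V, v + v = 0

attribute [instance] Dat.grp Dat.mod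

variable {B : Type u} [Ring B] {τ : RingAut B}

/-- The underlying type of the `n`-th twist of `D`. -/
def GT (D : Dat B τ) (_n : ℤ) : Type u := D.V

/-- The underlying type of the `n`-th projective. -/
def PT (D : Dat B τ) (_n : ℤ) : Type u := D.V × D.V

namespace Dat

variable (D : Dat B τ) (n : ℤ)

instance : AddCommGroup (GT D n) := inferInstanceAs (AddCommGroup D.V)
instance : AddCommGroup (PT D n) := inferInstanceAs (AddCommGroup (D.V × D.V))

def gmk (v : D.V) : GT D n := v
def gval (v : GT D n) : D.V := v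
def pmk (v : D.V × D.V) : PT D n := v
def pval (v : PT D n) : D.V × D.V := v

instance : Module (DD B τ) (GT D n) where
  smul x v := D.gmk n ((τ ^ n) x.fst • D.gval n v + (τ ^ n) x.snd • D.d (D.gval n v))
  one_smul v := by
    change ((τ ^ n) (1 : DD B τ).fst • D.gval n v + (τ ^ n) (1 : DD B τ).snd • D.d (D.gval n v)
      : D.V) = D.gval n v
    simp
  mul_smul x y v := by
    change ((τ ^ n) (x * y).fst • D.gval n v + (τ ^ n) (x * y).snd • D.d (D.gval n v) : D.V) =
      (τ ^ n) x.fst • ((τ ^ n) y.fst • D.gval n v + (τ ^ n) y.snd • D.d (D.gval n v)) +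
      (τ ^ n) x.snd • D.d ((τ ^ n) y.fst • D.gval n v + (τ ^ n) y.snd • D.d (D.gval n v))
    simp only [DD.mul_fst, DD.mul_snd, map_mul, map_add, mul_smul, smul_add, add_smul, D.d_smul,
      D.d_d, smul_zero, add_zero, ← zpow_succ_apply, ← zpow_succ_apply']
    abel
  smul_zero x := by
    change ((τ ^ n) x.fst • (0 : D.V) + (τ ^ n) x.snd • D.d (0 : D.V) : D.V) = 0
    simp
  smul_add x v w := by
    change ((τ ^ n) x.fst • (D.gval n v + D.gval n w) +
      (τ ^ n) x.snd • D.d (D.gval n v + D.gval n w) : D.V) =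
      ((τ ^ n) x.fst • D.gval n v + (τ ^ n) x.snd • D.d (D.gval n v)) +
      ((τ ^ n) x.fst • D.gval n w + (τ ^ n) x.snd • D.d (D.gval n w))
    simp only [smul_add, map_add]
    abel
  add_smul x y v := by
    change ((τ ^ n) (x + y).fst • D.gval n v + (τ ^ n) (x + y).snd • D.d (D.gval n v) : D.V) =
      ((τ ^ n) x.fst • D.gval n v + (τ ^ n) x.snd • D.d (D.gval n v)) +
      ((τ ^ n) y.fst • D.gval n v + (τ ^ n) y.snd • D.d (D.gval n v))
    simp only [DD.add_fst, DD.add_snd, map_add, add_smul]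
    abel
  zero_smul v := by
    change ((τ ^ n) (0 : DD B τ).fst • D.gval n v + (τ ^ n) (0 : DD B τ).snd • D.d (D.gval n v)
      : D.V) = 0
    simp

instance : Module (DD B τ) (PT D n) where
  smul x v := D.pmk n ((τ ^ (n + 1)) x.fst • (D.pval n v).1,
    (τ ^ n) x.fst • (D.pval n v).2 + (τ ^ n) x.snd • (D.pval n v).1)
  one_smul v := by
    change (((τ ^ (n + 1)) (1 : DD B τ).fst • (D.pval n v).1,
      (τ ^ n) (1 : DD B τ).fst • (D.pval n v).2 + (τ ^ n) (1 : DD B τ).snd • (D.pval n v).1)
      : D.V × D.V) = D.pval n v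
    simp
  mul_smul x y v := by
    change (((τ ^ (n + 1)) (x * y).fst • (D.pval n v).1,
      (τ ^ n) (x * y).fst • (D.pval n v).2 + (τ ^ n) (x * y).snd • (D.pval n v).1)
      : D.V × D.V) = ((τ ^ (n + 1)) x.fst • ((τ ^ (n + 1)) y.fst • (D.pval n v).1),
      (τ ^ n) x.fst • ((τ ^ n) y.fst • (D.pval n v).2 + (τ ^ n) y.snd • (D.pval n v).1) +
      (τ ^ n) x.snd • ((τ ^ (n + 1)) y.fst • (D.pval n v).1))
    refine Prod.ext ?_ ?_
    · simp only [DD.mul_fst, map_mul, mul_smul]
    · simp only [DD.mul_fst, DD.mul_snd, map_mul, map_add, mul_smul, smul_add, add_smul,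
        ← zpow_succ_apply']
      abel
  smul_zero x := by
    change (((τ ^ (n + 1)) x.fst • (0 : D.V), (τ ^ n) x.fst • (0 : D.V) +
      (τ ^ n) x.snd • (0 : D.V)) : D.V × D.V) = 0
    simp
  smul_add x v w := by
    change (((τ ^ (n + 1)) x.fst • ((D.pval n v).1 + (D.pval n w).1),
      (τ ^ n) x.fst • ((D.pval n v).2 + (D.pval n w).2) +
      (τ ^ n) x.snd • ((D.pval n v).1 + (D.pval n w).1)) : D.V × D.V) =
      ((τ ^ (n + 1)) x.fst • (D.pval n v).1 + (τ ^ (n + 1)) x.fst • (D.pval n w).1,
      ((τ ^ n) x.fst • (D.pval n v).2 + (τ ^ n) x.snd • (D.pval n v).1) +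
      ((τ ^ n) x.fst • (D.pval n w).2 + (τ ^ n) x.snd • (D.pval n w).1))
    refine Prod.ext ?_ ?_
    · simp only [smul_add]
    · simp only [smul_add]
      abel
  add_smul x y v := by
    change (((τ ^ (n + 1)) (x + y).fst • (D.pval n v).1,
      (τ ^ n) (x + y).fst • (D.pval n v).2 + (τ ^ n) (x + y).snd • (D.pval n v).1)
      : D.V × D.V) = ((τ ^ (n + 1)) x.fst • (D.pval n v).1 + (τ ^ (n + 1)) y.fst • (D.pval n v).1,
      ((τ ^ n) x.fst • (D.pval n v).2 + (τ ^ n) x.snd • (D.pval n v).1) +
      ((τ ^ n) y.fst • (D.pval n v).2 + (τ ^ n) y.snd • (D.pval n v).1))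
    refine Prod.ext ?_ ?_
    · simp only [DD.add_fst, map_add, add_smul]
    · simp only [DD.add_fst, DD.add_snd, map_add, add_smul]
      abel
  zero_smul v := by
    change (((τ ^ (n + 1)) (0 : DD B τ).fst • (D.pval n v).1,
      (τ ^ n) (0 : DD B τ).fst • (D.pval n v).2 + (τ ^ n) (0 : DD B τ).snd • (D.pval n v).1)
      : D.V × D.V) = 0
    simp

theorem gsmul_def (x : DD B τ) (v : D.V) : x • D.gmk n v =
    D.gmk n ((τ ^ n) x.fst • v + (τ ^ n) x.snd • D.d v) := rfl

theorem psmul_def (x : DD B τ) (v w : D.V) : x • D.pmk n (v, w) =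
    D.pmk n ((τ ^ (n + 1)) x.fst • v, (τ ^ n) x.fst • w + (τ ^ n) x.snd • v) := rfl

theorem neg_eq_self (v : D.V) : -v = v := by
  have := D.two v
  exact neg_eq_of_add_eq_zero_left this

/-- The inclusion of the `n`-th twist in the `n`-th projective. -/
def iMap : GT D n →ₗ[DD B τ] PT D n where
  toFun w := D.pmk n (D.d (D.gval n w), D.gval n w)
  map_add' v w := by
    change ((D.d (D.gval n v + D.gval n w), D.gval n v + D.gval n w) : D.V × D.V) =
      (D.d (D.gval n v) + D.d (D.gval n w), D.gval n v + D.gval n w)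
    rw [map_add]
  map_smul' x v := by
    change ((D.d ((τ ^ n) x.fst • D.gval n v + (τ ^ n) x.snd • D.d (D.gval n v)),
      (τ ^ n) x.fst • D.gval n v + (τ ^ n) x.snd • D.d (D.gval n v)) : D.V × D.V) =
      ((τ ^ (n + 1)) x.fst • D.d (D.gval n v),
        (τ ^ n) x.fst • D.gval n v + (τ ^ n) x.snd • D.d (D.gval n v))
    refine Prod.ext ?_ rfl
    simp only [map_add, D.d_smul, D.d_d, smul_zero, add_zero, ← zpow_succ_apply]

/-- The projection of the `n`-th projective to the `n + 1`-st twist. -/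
def pMap : PT D n →ₗ[DD B τ] GT D (n + 1) where
  toFun v := D.gmk (n + 1) ((D.pval n v).1 + D.d (D.pval n v).2)
  map_add' v w := by
    change (((D.pval n v).1 + (D.pval n w).1) + D.d ((D.pval n v).2 + (D.pval n w).2) : D.V) =
      ((D.pval n v).1 + D.d (D.pval n v).2) + ((D.pval n w).1 + D.d (D.pval n w).2)
    rw [map_add]; abel
  map_smul' x v := by
    change ((τ ^ (n + 1)) x.fst • (D.pval n v).1 +
      D.d ((τ ^ n) x.fst • (D.pval n v).2 + (τ ^ n) x.snd • (D.pval n v).1) : D.V) =
      (τ ^ (n + 1)) x.fst • ((D.pval n v).1 + D.d (D.pval n v).2) +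
      (τ ^ (n + 1)) x.snd • D.d ((D.pval n v).1 + D.d (D.pval n v).2)
    simp only [map_add, D.d_smul, D.d_d, smul_add, smul_zero, add_zero, ← zpow_succ_apply]
    abel

theorem iMap_apply (v : D.V) : D.iMap n (D.gmk n v) = D.pmk n (D.d v, v) := rfl
theorem pMap_apply (v w : D.V) : D.pMap n (D.pmk n (v, w)) = D.gmk (n + 1) (v + D.d w) := rfl

theorem iMap_injective : Function.Injective (D.iMap n) := by
  intro v w h
  exact congrArg Prod.snd (show (D.d (D.gval n v), D.gval n v) = (D.d (D.gval n w), D.gval n w)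
    from h)

theorem pMap_surjective : Function.Surjective (D.pMap n) := by
  intro v
  refine ⟨D.pmk n (D.gval _ v, 0), ?_⟩
  refine (D.pMap_apply n _ _).trans ?_
  change D.gval _ v + D.d 0 = D.gval _ v
  simp only [map_zero, add_zero]

theorem exact_iMap_pMap : Function.Exact (D.iMap n) (D.pMap n) := by
  rintro ⟨v, w⟩
  constructor
  · intro h
    have h' : v + D.d w = 0 := h
    refine ⟨D.gmk n w, ?_⟩
    change ((D.d w, w) : D.V × D.V) = (v, w)
    rw [eq_neg_of_add_eq_zero_left h', D.neg_eq_self]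
  · rintro ⟨y, hy⟩
    have h1 : D.d (D.gval n y) = v := congrArg Prod.fst hy
    have h2 : D.gval n y = w := congrArg Prod.snd hy
    change v + D.d w = 0
    rw [← h1, h2]
    exact D.two _

/-- The `n`-th twist of the `B`-module `D.V` (no differential). -/
def BT (D : Dat B τ) (_n : ℤ) : Type u := D.V

instance : AddCommGroup (BT D n) := inferInstanceAs (AddCommGroup D.V)
instance : Module B (BT D n) := Module.compHom D.V ((τ ^ n : RingAut B) : B →+* B)

theorem bsmul_def (b : B) (v : D.V) :
    (b • (show BT D n from v) : BT D n) = (show BT D n from ((τ ^ n) b • v : D.V)) := rfl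

theorem projective_BT [Module.Projective B D.V] : Module.Projective B (BT D n) := by
  let σ : B ≃+* B := (τ ^ n)⁻¹
  haveI : RingHomInvPair (σ : B →+* B) (σ.symm : B →+* B) := RingHomInvPair.of_ringEquiv σ
  haveI : RingHomInvPair (σ.symm : B →+* B) (σ : B →+* B) := RingHomInvPair.of_ringEquiv σ.symm
  let e : D.V ≃ₛₗ[(σ : B →+* B)] BT D n :=
    { toFun := fun v => v
      invFun := fun v => v
      left_inv := fun _ => rfl
      right_inv := fun _ => rfl
      map_add' := fun _ _ => rfl
      map_smul' := fun b v => by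
        change b • v = (τ ^ n) (((τ ^ n)⁻¹ : RingAut B) b) • v
        congr 1
        change b = ((τ ^ n) * (τ ^ n)⁻¹ : RingAut B) b
        rw [mul_inv_cancel]; rfl }
  exact Module.Projective.of_equiv e

theorem projective_PT [Module.Projective B D.V] : Module.Projective (DD B τ) (PT D n) := by
  refine Module.Projective.of_lifting_property'' ?_
  intro f hf
  -- view the source as a `B`-module
  let Q := PT D n →₀ DD B τ
  let : Module B Q := Module.compHom Q (DD.inlHom : B →+* DD B τ)
  have hsm : ∀ (b : B) (q : Q), b • q = (DD.inl b : DD B τ) • q := fun _ _ => rfl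
  let : Module B (PT D n) := Module.compHom (PT D n) (DD.inlHom : B →+* DD B τ)
  have hsm' : ∀ (b : B) (q : PT D n), b • q = (DD.inl b : DD B τ) • q := fun _ _ => rfl
  let fB : Q →ₗ[B] PT D n :=
    { toFun := f
      map_add' := f.map_add
      map_smul' := fun b q => by
        rw [hsm, hsm']
        exact f.map_smul _ _ }
  let α : BT D (n + 1) →ₗ[B] PT D n :=
    { toFun := fun v => D.pmk n (v, 0)
      map_add' := fun v w => by
        refine Prod.ext rfl ?_
        change (0 : D.V) = 0 + 0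
        rw [add_zero]
      map_smul' := fun b v => by
        refine Prod.ext rfl ?_
        change (0 : D.V) = (τ ^ n) b • (0 : D.V) + (τ ^ n) 0 • (show D.V from v)
        rw [map_zero, zero_smul, smul_zero, add_zero] }
  have := D.projective_BT (n + 1)
  obtain ⟨β, hβ⟩ := Module.projective_lifting_property fB α hf
  let γ : D.V → Q := fun v => β v
  have hγf : ∀ v, f (γ v) = D.pmk n (v, 0) := fun v => LinearMap.congr_fun hβ v
  have hγs : ∀ (b : B) (v : D.V), γ ((τ ^ (n + 1)) b • v) = (DD.inl b : DD B τ) • γ v :=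
    fun b v => β.map_smul b v
  have hγa : ∀ v w, γ (v + w) = γ v + γ w := fun v w => β.map_add v w
  let δ : DD B τ := DD.inr 1
  have hx : ∀ x : DD B τ, x = DD.inl x.fst + DD.inl x.snd * δ := by
    intro x; ext <;> simp [δ]
  have hδ : ∀ b : B, δ * DD.inl b = DD.inl (τ b) * δ := by
    intro x; ext <;> simp [δ]
  have hδδ : δ * δ = 0 := by ext <;> simp [δ]
  let h : PT D n →ₗ[DD B τ] Q :=
    { toFun := fun v => γ (D.pval n v).1 + δ • γ (D.pval n v).2
      map_add' := fun v w => by
        change γ ((D.pval n v).1 + (D.pval n w).1) + δ • γ ((D.pval n v).2 + (D.pval n w).2) = _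
        rw [hγa, hγa, smul_add]
        abel
      map_smul' := fun x v => by
        change γ ((τ ^ (n + 1)) x.fst • (D.pval n v).1) +
          δ • γ ((τ ^ n) x.fst • (D.pval n v).2 + (τ ^ n) x.snd • (D.pval n v).1) =
          x • (γ (D.pval n v).1 + δ • γ (D.pval n v).2)
        have key : ∀ (b : B) (w : D.V), δ • γ ((τ ^ n) b • w) =
            (DD.inl b * δ : DD B τ) • γ w := by
          intro b w
          have e1 : (τ ^ n) b = (τ ^ (n + 1)) (τ.symm b) := by
            rw [zpow_succ_apply']; simp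
          rw [e1, hγs, ← mul_smul, hδ]
          simp
        rw [hγs, hγa, smul_add, key, key]
        conv_rhs => rw [hx x]
        simp only [add_smul, smul_add, mul_smul]
        rw [← mul_smul δ δ, hδδ]
        simp only [zero_smul, smul_zero, add_zero]
        abel }
  refine ⟨h, ?_⟩
  ext v : 1
  change f (γ (D.pval n v).1 + δ • γ (D.pval n v).2) = v
  rw [map_add, map_smul, hγf, hγf, psmul_def]
  refine Prod.ext ?_ ?_
  · change (D.pval n v).1 + (τ ^ (n + 1)) (0 : B) • (D.pval n v).2 = (D.pval n v).1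
    simp
  · change (0 : D.V) + ((τ ^ n) (0 : B) • (0 : D.V) + (τ ^ n) (1 : B) • (D.pval n v).2) =
      (D.pval n v).2
    simp

end Dat

end H54
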